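import Pool.Agent.Helper41.SST.TDefs

/-!
# SST-12 Cz: the central subgroup of order two and the count

PROOFS. `cz h = Subgroup.zpowers (BG.z h)`. `mem_cz`: `x ∈ zpowers z ↔ x = 1 ∨ x = z` for an element of order two (`BG.cinv`:
`z * z = 1`, `z ≠ 1`; `Subgroup.mem_zpowers_iff`, `Int.even_or_odd`, or `orderOf_eq_prime`). `cz_normal`: `z` is central. `cz_card`:
`Nat.card_zpowers`, `orderOf_eq_prime`. `lz`: the linear character with `lz z = -1`: define it on all of `cz` by
`x ↦ if x = 1 then 1 else -1` (multiplicative by the four cases of `mem_cz`).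
`irrC_lz`: `χ c = lz c * χ 1` for all `c ∈ cz` is trivial for `c = 1` and says `χ z = -χ 1` for `c = z`.
`count`: `BG.card`, `Fintype.card (Pt p w r) = w * p + r`, `Fintype.card (Fin w ⊕ Fin r) = w + r`, `p = 2 * m + 1`:
`2 * 2 ^ (w * p + r + 1) = (2 ^ (w * m)) ^ 2 * 2 ^ (w + r + 1) * 2`.
-/

set_option autoImplicit false

open Equiv Matrix

namespace Pool.Agent.Helper41.SST

open Pool.Agent.Helper81.AN

section

variable {ι L : Type} [Group L] (h : L →* SPerm ι)

/-- the subgroup generated by the central involution -/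
def cz : Subgroup (BG h) := Subgroup.zpowers (BG.z h)

theorem mem_cz (x : BG h) : x ∈ cz h ↔ x = 1 ∨ x = BG.z h := by
  have hz : BG.z h * BG.z h = 1 := (BG.cinv h).sq
  unfold cz
  rw [Subgroup.mem_zpowers_iff]
  constructor
  · rintro ⟨k, rfl⟩
    rcases Int.even_or_odd' k with ⟨m, rfl | rfl⟩
    · left
      rw [_root_.zpow_mul, zpow_ofNat, pow_two, hz, _root_.one_zpow]
    · right
      rw [_root_.zpow_add, _root_.zpow_mul, zpow_ofNat, pow_two, hz, _root_.one_zpow, one_mul, zpow_one]
  · rintro (rfl | rfl)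
    · exact ⟨0, zpow_zero _⟩
    · exact ⟨1, zpow_one _⟩

theorem cz_normal : (cz h).Normal := by
  refine ⟨fun x hx g => ?_⟩
  rw [mem_cz] at hx ⊢
  rcases hx with rfl | rfl
  · left
    rw [mul_one, mul_inv_cancel]
  · right
    rw [← (BG.cinv h).comm g, mul_inv_cancel_right]

theorem cz_card : Nat.card (cz h) = 2 := by
  unfold cz
  rw [Nat.card_zpowers]
  exact orderOf_eq_prime (by rw [pow_two]; exact (BG.cinv h).sq) (BG.cinv h).ne

open Classical in
/-- the linear character with value `-1` at the central involution -/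
noncomputable def lz : cz h →* ℂˣ where
  toFun c := if c = 1 then 1 else -1
  map_one' := by
    rw [if_pos rfl]
  map_mul' := by
    intro a b
    have hz : BG.z h * BG.z h = 1 := (BG.cinv h).sq
    have hne : BG.z h ≠ 1 := (BG.cinv h).ne
    have key : ∀ c : cz h, c = 1 ∨ (c ≠ 1 ∧ (c : BG h) = BG.z h) := by
      intro c
      rcases (mem_cz h c).1 c.2 with h1 | h1
      · left
        exact Subtype.ext h1
      · right
        refine ⟨fun h2 => hne ?_, h1⟩
        rw [← h1, h2]
        rfl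
    rcases key a with ha | ⟨ha, ha'⟩
    · subst ha
      rw [one_mul, if_pos rfl, one_mul]
    · rcases key b with hb | ⟨hb, hb'⟩
      · subst hb
        rw [mul_one, if_pos rfl, mul_one]
      · have hab : a * b = 1 := by
          apply Subtype.ext
          change (a : BG h) * (b : BG h) = 1
          rw [ha', hb', hz]
        rw [if_pos hab, if_neg ha, if_neg hb, neg_mul_neg, one_mul]

theorem lz_one : lz h 1 = 1 := map_one _

theorem lz_z (c : cz h) (hc : (c : BG h) = BG.z h) : lz h c = -1 := by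
  refine if_neg fun h1 => (BG.cinv h).ne ?_
  rw [← hc, h1]
  rfl

theorem irrC_lz (χ : BG h → ℂ) : χ ∈ IrrC (cz h) (lz h) ↔ χ ∈ IrrZ (BG.z h) (-1) := by
  constructor
  · rintro ⟨h1, h2⟩
    refine ⟨h1, ?_⟩
    have h3 := h2 ⟨BG.z h, (mem_cz h _).2 (Or.inr rfl)⟩
    rw [lz_z h _ rfl] at h3
    simpa using h3
  · rintro ⟨h1, h2⟩
    refine ⟨h1, fun c => ?_⟩
    rcases (mem_cz h c).1 c.2 with h3 | h3
    · have h4 : c = 1 := Subtype.ext h3
      rw [h4, lz_one]
      simp
    · rw [lz_z h c h3, h3, h2]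
      simp

end

theorem count (p : ℕ) [Fact p.Prime] (m : ℕ) (hm : 2 * m + 1 = p) (w r : ℕ) :
    2 * Nat.card (BG ((permH (Pt p w r)).comp (permL p w r))) =
      (2 ^ (w * m)) ^ 2 * Nat.card (BG (signL p w r)) *
        Nat.card (cz ((permH (Pt p w r)).comp (permL p w r))) := by
  rw [cz_card, BG.card, BG.card]
  have h1 : Fintype.card (Pt p w r) = w * p + r := by
    rw [Fintype.card_sum, Fintype.card_prod, Fintype.card_fin, Fintype.card_fin, ZMod.card]
  have h2 : Fintype.card (Fin w ⊕ Fin r) = w + r := by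
    rw [Fintype.card_sum, Fintype.card_fin, Fintype.card_fin]
  rw [h1, h2]
  have h3 : 2 * 2 ^ (w * p + r + 1) = (2 ^ (w * m)) ^ 2 * 2 ^ (w + r + 1) * 2 := by
    rw [← pow_mul, ← pow_add, ← pow_succ, ← pow_succ']
    congr 1
    rw [← hm]
    ring
  calc 2 * (2 ^ (w * p + r + 1) * Nat.card (LL p w r))
      = (2 * 2 ^ (w * p + r + 1)) * Nat.card (LL p w r) := by ring
    _ = ((2 ^ (w * m)) ^ 2 * 2 ^ (w + r + 1) * 2) * Nat.card (LL p w r) := by rw [h3]
    _ = _ := by ring

end Pool.Agent.Helper41.SST
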