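import Pool.Agent.Helper41.SST.Phi

/-!
# SST-10 PhiPar: the parity, and every element of the small group occurs

PROOFS. `phi_par`: let `P : QT p w r d →* ℤˣ` be the homomorphism `qm M y ↦ BG.par _ y` (`QuotientGroup.lift` of
`(BG.par _).comp (MonoidHom.snd _ _)`; it kills `(-1, z)` as `Cl.par Cl.z = 1`, hence the normal closure:
`Subgroup.normalClosure_le_normal`). `P.comp (phi h) = BG.par _` on `XX p w r`: `SemidirectProduct.hom_ext`; on `inl`: `Cl.hom_ext`
(`phi_inl`, `phiCl_z`, `phiCl_a`: `z ↦ 1`, `a q ↦ par (a (..)) = -1` for both kinds of `q`); on `inr g`: `1`.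
`phi_surj`: the set of `y` for which there are `x`, `M` with `phi h x = qm M y` is closed under products (`qm_mul`) and contains
`inl Cl.z` (`x = inl Cl.z`, `M = 1`), `inl (Cl.a (inl i))` (`x = inl (Cl.a (inl (i, 0)))`), `inl (Cl.a (inr j))`, `inr g`. By `Cl.ind` it contains all
`inl c`, and `y = inl y.left * inr y.right` (`SemidirectProduct.inl_left_mul_inr_right`).
-/

set_option autoImplicit false

open Equiv Matrix

namespace Pool.Agent.Helper41.SST

open Pool.Agent.Helper81.AN

variable {p w r d : ℕ} [Fact p.Prime] {A : Fin w → ZMod p → GL (Fin d) ℂ}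
  {N : LL p w r →* GL (Fin d) ℂ}

theorem bgpar_inl {κ L : Type} [Group L] (h : L →* SPerm κ) (c : Cl κ) :
    BG.par h (SemidirectProduct.inl c) = Cl.par c := SemidirectProduct.lift_inl _ _ _ _

theorem bgpar_inr {κ L : Type} [Group L] (h : L →* SPerm κ) (g : L) :
    BG.par h (SemidirectProduct.inr g) = 1 := SemidirectProduct.lift_inr _ _ _ _

theorem clpar_z {κ : Type} : Cl.par (Cl.z : Cl κ) = 1 := Cl.lift_z _ _ _ _ _ _

theorem clpar_a {κ : Type} (i : κ) : Cl.par (Cl.a i : Cl κ) = -1 := Cl.lift_a _ _ _ _ _ _ _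

/-- the parity on the target -/
noncomputable def qpar (p w r d : ℕ) [Fact p.Prime] : QT p w r d →* ℤˣ :=
  QuotientGroup.lift (NQ d (BG.z (signL p w r)))
    ((BG.par (signL p w r)).comp (MonoidHom.snd (GL (Fin d) ℂ) (BG (signL p w r)))) (by
      refine Subgroup.normalClosure_le_normal ?_
      rintro _ rfl
      change BG.par (signL p w r) (BG.z (signL p w r)) = 1
      rw [BG.z, bgpar_inl, clpar_z])

theorem qpar_qm (M : GL (Fin d) ℂ) (y : BG (signL p w r)) :
    qpar p w r d (qm p w r d M y) = BG.par (signL p w r) y := rfl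

theorem phi_par (h : PD p w r d A N) (x : XX p w r) (M : GL (Fin d) ℂ) (y : BG (signL p w r))
    (hx : phi h x = qm p w r d M y) : BG.par _ y = BG.par _ x := by
  have key : (qpar p w r d).comp (phi h) = BG.par ((permH (Pt p w r)).comp (permL p w r)) := by
    apply SemidirectProduct.hom_ext
    · apply Cl.hom_ext
      · change qpar p w r d (phi h (SemidirectProduct.inl Cl.z)) =
          BG.par ((permH (Pt p w r)).comp (permL p w r)) (SemidirectProduct.inl Cl.z)
        rw [phi_inl, phiCl_z, qpar_qm, BG.z, bgpar_inl, bgpar_inl, clpar_z, clpar_z]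
      · intro q
        change qpar p w r d (phi h (SemidirectProduct.inl (Cl.a q))) =
          BG.par ((permH (Pt p w r)).comp (permL p w r)) (SemidirectProduct.inl (Cl.a q))
        rw [phi_inl, phiCl_a, bgpar_inl, clpar_a]
        rcases q with q | q
        · change qpar p w r d (qm p w r d _ (SemidirectProduct.inl (Cl.a (Sum.inl q.1)))) = _
          rw [qpar_qm, bgpar_inl, clpar_a]
        · change qpar p w r d (qm p w r d _ (SemidirectProduct.inl (Cl.a (Sum.inr q)))) = _
          rw [qpar_qm, bgpar_inl, clpar_a]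
    · refine MonoidHom.ext fun g => ?_
      change qpar p w r d (phi h (SemidirectProduct.inr g)) =
          BG.par ((permH (Pt p w r)).comp (permL p w r)) (SemidirectProduct.inr g)
      rw [phi_inr, qpar_qm, bgpar_inr, bgpar_inr]
  have h1 : qpar p w r d (phi h x) = BG.par ((permH (Pt p w r)).comp (permL p w r)) x :=
    DFunLike.congr_fun key x
  rw [hx, qpar_qm] at h1
  exact h1

theorem phi_surj (h : PD p w r d A N) (y : BG (signL p w r)) :
    ∃ (x : XX p w r) (M : GL (Fin d) ℂ), phi h x = qm p w r d M y := by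
  have hmul : ∀ y y' : BG (signL p w r), (∃ (x : XX p w r) (M : GL (Fin d) ℂ), phi h x = qm p w r d M y) →
      (∃ (x : XX p w r) (M : GL (Fin d) ℂ), phi h x = qm p w r d M y') →
      ∃ (x : XX p w r) (M : GL (Fin d) ℂ), phi h x = qm p w r d M (y * y') := by
    rintro y y' ⟨x, M, hx⟩ ⟨x', M', hx'⟩
    exact ⟨x * x', M * M', by rw [map_mul, hx, hx', qm_mul]⟩
  have hinl : ∀ c : Cl (Fin w ⊕ Fin r), ∃ (x : XX p w r) (M : GL (Fin d) ℂ),
      phi h x = qm p w r d M (SemidirectProduct.inl c) := by
    intro c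
    induction c using Cl.ind with
    | h1 => exact ⟨1, 1, by rw [map_one, map_one]; exact qm_one.symm⟩
    | hz g hg =>
      rw [map_mul]
      refine hmul _ _ ⟨SemidirectProduct.inl Cl.z, 1, ?_⟩ hg
      rw [phi_inl, phiCl_z]
      rfl
    | ha i g hg =>
      rw [map_mul]
      rcases i with i | j
      · refine hmul _ _ ⟨SemidirectProduct.inl (Cl.a (Sum.inl (i, 0))), A i 0, ?_⟩ hg
        rw [phi_inl, phiCl_a]
        rfl
      · refine hmul _ _ ⟨SemidirectProduct.inl (Cl.a (Sum.inr j)), 1, ?_⟩ hg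
        rw [phi_inl, phiCl_a]
        rfl
  rw [← SemidirectProduct.inl_left_mul_inr_right y]
  exact hmul _ _ (hinl _) ⟨SemidirectProduct.inr y.right, N y.right, phi_inr h _⟩

end Pool.Agent.Helper41.SST
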