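import Pool.Agent.Helper41.SST.Phi

/-!
# SST-11 PhiSpan: the matrices which occur with `1` span everything

PROOF. Let `T` be the set of the matrices `M` (in `GL`, as matrices) for which there is `x` with `phi h x = qm M 1`. `T` is
closed under products (`qm_mul`, `map_mul`) and contains `1`, so `T` is (the carrier of) a submonoid of the matrix ring, and
`Submodule.span ℂ T = Subalgebra.toSubmodule (Algebra.adjoin ℂ T)` (`Algebra.adjoin_eq_span`, `Submonoid.closure_eq`). It contains
`A i x * A i y`: `phi h (inl (Cl.a (inl (i, x)) * Cl.a (inl (i, y)))) = img (inl (i, x)) * img (inl (i, y)) = qm (A i x * A i y) (inl (a (inl i) * a (inl i)))`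
and `a (inl i) * a (inl i) = 1` (`Cl.aa`). So `Algebra.adjoin ℂ T` contains the algebra of `h.gen`, which is everything.
-/

set_option autoImplicit false

open Equiv Matrix

namespace Pool.Agent.Helper41.SST

open Pool.Agent.Helper81.AN

variable {p w r d : ℕ} [Fact p.Prime] {A : Fin w → ZMod p → GL (Fin d) ℂ}
  {N : LL p w r →* GL (Fin d) ℂ}

theorem phi_span (h : PD p w r d A N) :
    Submodule.span ℂ {M : Matrix (Fin d) (Fin d) ℂ | ∃ (x : XX p w r) (B : GL (Fin d) ℂ),
      (B : Matrix (Fin d) (Fin d) ℂ) = M ∧ phi h x = qm p w r d B 1} = ⊤ := by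
  let T : Submonoid (Matrix (Fin d) (Fin d) ℂ) :=
    { carrier := {M : Matrix (Fin d) (Fin d) ℂ | ∃ (x : XX p w r) (B : GL (Fin d) ℂ),
        (B : Matrix (Fin d) (Fin d) ℂ) = M ∧ phi h x = qm p w r d B 1}
      one_mem' := ⟨1, 1, rfl, by rw [map_one]; exact qm_one.symm⟩
      mul_mem' := by
        rintro _ _ ⟨x, B, rfl, hx⟩ ⟨x', B', rfl, hx'⟩
        exact ⟨x * x', B * B', rfl, by rw [map_mul, hx, hx', qm_mul, mul_one]⟩ }
  have h1 : Submodule.span ℂ (T : Set (Matrix (Fin d) (Fin d) ℂ)) = ⊤ := by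
    rw [← Submonoid.closure_eq T, ← Algebra.adjoin_eq_span]
    have h2 : Algebra.adjoin ℂ (T : Set (Matrix (Fin d) (Fin d) ℂ)) = ⊤ := by
      rw [eq_top_iff, ← h.gen]
      apply Algebra.adjoin_mono
      rintro _ ⟨i, x, y, rfl⟩
      refine ⟨SemidirectProduct.inl (Cl.a (Sum.inl (i, x)) * Cl.a (Sum.inl (i, y))),
        A i x * A i y, rfl, ?_⟩
      rw [phi_inl, map_mul, phiCl_a, phiCl_a]
      change qm p w r d (A i x) (SemidirectProduct.inl (Cl.a (Sum.inl i))) *
        qm p w r d (A i y) (SemidirectProduct.inl (Cl.a (Sum.inl i))) = _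
      rw [qm_mul, ← map_mul, Cl.aa, map_one]
    rw [h2]
    rfl
  exact h1

end Pool.Agent.Helper41.SST
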