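import Pool.Agent.Helper41.SST.PDEx
import Pool.Agent.Helper41.SST.PhiPar
import Pool.Agent.Helper41.SST.PhiSpan
import Pool.Agent.Helper41.SST.Cz
import Pool.Agent.Helper42.INC.Red2

/-!
# SST-14 Main: the S-step

PROOF. `pd_exists` gives `PD`; `ten` with `X = XX p w r`, `Y = BG (signL p w r)`, `Φ = phi h`, `C = cz _`, `lam = lz _`. For a label map
`Lb` of `Y` the label of `χ` is `Lb.e (e⁻¹ χ)`. Twist: `irr_tw`: a character times a sign character is irreducible.
-/

set_option autoImplicit false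

open Equiv Matrix

namespace Pool.Agent.Helper41.SST

open Pool.Agent.Helper81.AN Pool.Agent.Helper42.INC

private theorem irr_tw {Y : Type} [Group Y] [Finite Y] (ε : Y →* ℤˣ) {ψ : Y → ℂ}
    (h : ψ ∈ Irr Y) : (fun y => (((ε y : ℤˣ) : ℤ) : ℂ) * ψ y) ∈ Irr Y := by
  have h1 := irr_linTwist ((Units.map (Int.castRingHom ℂ).toMonoidHom).comp ε) h
  exact h1

private theorem scal_one (d : ℕ) : scal d 1 = 1 := map_one _

private theorem scal_neg (d : ℕ) : scal d (-1) = -1 := by
  apply Units.ext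
  change algebraMap ℂ (Matrix (Fin d) (Fin d) ℂ) ((-1 : ℂˣ) : ℂ) = _
  rw [Units.val_neg, Units.val_one, map_neg, map_one, Units.val_neg, Units.val_one]

theorem s_step (p : ℕ) [Fact p.Prime] (m : ℕ) (hm : 2 * m + 1 = p) (_hm0 : 0 < m) (w r : ℕ)
    {L : Type} {tw : L → L} {dg : L → ℕ}
    (h : Nonempty (Lab (BG (signL p w r)) (BG.par _) (BG.z _) (-1) L tw dg)) :
    Nonempty (Lab (BG ((permH (Pt p w r)).comp (permL p w r))) (BG.par _) (BG.z _) (-1) L tw
      (fun l => 2 ^ (w * m) * dg l)) := by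
  obtain ⟨Lb⟩ := h
  obtain ⟨A, N, hPD⟩ := pd_exists p m hm w r
  have : Finite (WW p w) := Finite.of_equiv _ SemidirectProduct.equivProd.symm
  have : Finite (LL p w r) := Finite.of_equiv _ SemidirectProduct.equivProd.symm
  have : Finite (BG (signL p w r)) := BG.finite _
  have : Finite (BG ((permH (Pt p w r)).comp (permL p w r))) := BG.finite _
  have hz := BG.cinv (signL p w r)
  have hΦC : ∀ c : cz ((permH (Pt p w r)).comp (permL p w r)), phi hPD c =
      qmk (2 ^ (w * m)) (BG.z (signL p w r)) (scal (2 ^ (w * m)) (lz _ c), 1) := by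
    intro c
    rcases (mem_cz _ _).1 c.2 with hc | hc
    · have h1 : c = 1 := Subtype.ext hc
      rw [h1, lz_one, scal_one]
      change phi hPD 1 = _
      rw [map_one]
      exact (map_one (qmk _ _)).symm
    · rw [lz_z _ c hc, scal_neg, hc]
      have h1 : phi hPD (BG.z _) = qm p w r (2 ^ (w * m)) 1 (BG.z _) :=
        (phi_inl hPD Cl.z).trans (phiCl_z hPD)
      rw [h1]
      have h2 := qm_neg (p := p) (w := w) (r := r) (d := 2 ^ (w * m)) 1
        (BG.z (signL p w r))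
      rw [hz.sq] at h2
      exact h2.symm
  obtain ⟨e, he, hdeg⟩ := ten (X := BG ((permH (Pt p w r)).comp (permL p w r)))
    (Y := BG (signL p w r)) hz (2 ^ (w * m)) (by positivity) (phi hPD) (phi_surj hPD)
    (phi_span hPD) (cz _) (cz_normal _) (lz _) hΦC (count p m hm w r)
  let c : IrrZ (BG.z ((permH (Pt p w r)).comp (permL p w r))) (-1) ≃
      IrrC (cz ((permH (Pt p w r)).comp (permL p w r))) (lz _) :=
    Equiv.setCongr (Set.ext fun χ => (irrC_lz _ χ).symm)
  have hc : ∀ χ, (c χ).1 = χ.1 := fun _ => rfl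
  refine ⟨⟨(c.trans e.symm).trans Lb.e, ?_, ?_⟩⟩
  · intro χ χ' hχ
    change Lb.e (e.symm (c χ')) = tw (Lb.e (e.symm (c χ)))
    apply Lb.twist
    set ψ := e.symm (c χ) with hψ
    have hpz : BG.par _ (BG.z (signL p w r)) = 1 := by
      change Cl.par Cl.z * 1 = (1 : ℤˣ)
      simp [Cl.par]
    let ψ' : IrrZ (BG.z (signL p w r)) (-1) :=
      ⟨fun y => (((BG.par _ y : ℤˣ) : ℤ) : ℂ) * ψ.1 y, irr_tw _ ψ.2.1, by
        change (((BG.par _ (BG.z (signL p w r)) : ℤˣ) : ℤ) : ℂ) * ψ.1 (BG.z _) =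
          -1 * ((((BG.par _ (1 : BG (signL p w r)) : ℤˣ) : ℤ) : ℂ) * ψ.1 1)
        rw [hpz, map_one, ψ.2.2]
        simp⟩
    have h1 : e ψ' = c χ' := by
      apply Subtype.ext
      funext x
      obtain ⟨⟨M, y⟩, hMy⟩ := QuotientGroup.mk'_surjective
        (NQ (2 ^ (w * m)) (BG.z (signL p w r))) (phi hPD x)
      have hMy' : phi hPD x = qmk (2 ^ (w * m)) (BG.z (signL p w r)) (M, y) := hMy.symm
      have h2 := he ψ' x M y hMy'
      have h3 := he ψ x M y hMy'
      have h4 : e ψ = c χ := by rw [hψ, Equiv.apply_symm_apply]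
      rw [h4, hc] at h3
      rw [h2, hc, hχ x, h3]
      have h5 := phi_par hPD x M y hMy'
      change _ * ((((BG.par _ y : ℤˣ) : ℤ) : ℂ) * ψ.1 y) = _
      rw [h5]
      ring
    have h2 : e.symm (c χ') = ψ' := by rw [← h1, Equiv.symm_apply_apply]
    intro y
    rw [h2]
  · intro χ
    change χ.1 1 = ((2 ^ (w * m) * dg (Lb.e (e.symm (c χ))) : ℕ) : ℂ)
    have h1 := hdeg (e.symm (c χ))
    rw [Equiv.apply_symm_apply, hc] at h1
    rw [h1, Lb.deg (e.symm (c χ))]
    push_cast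
    ring

end Pool.Agent.Helper41.SST
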