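import Pool.Agent.Helper81.AN.Defs

/-!
# S-step of LOC2 (project ALT/AN, MP_5ecade_al): definitions

* `chi2 p : (ZMod p)ˣ →* ℤˣ`: the sign of the permutation `x ↦ u x` of `ZMod p` (this is the
  quadratic character).
* `signL p w r`: the local group acts on `Fin w ⊕ Fin r` by signed permutations.
* `Gam G`: the matrices `G x` are anticommuting involutions.
* `tns A`: tensor product of the matrices `A i`; `plc i A`: the matrix `A` at the place `i`;
  `prm σ`: permutation of the tensor factors.
-/

set_option autoImplicit false

open Equiv Matrix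

namespace Pool.Agent.Helper41.SST

open Pool.Agent.Helper81.AN

/-- the quadratic character: the sign of the multiplication by `u` -/
noncomputable def chi2 (p : ℕ) [Fact p.Prime] : (ZMod p)ˣ →* ℤˣ :=
  Perm.sign.comp (MulAction.toPermHom (ZMod p)ˣ (ZMod p))

/-- the signed permutation of `Fin w ⊕ Fin r` given by an element of `WW × S_r` -/
noncomputable def signW (p w r : ℕ) [Fact p.Prime] :
    WW p w × Perm (Fin r) →* SPerm (Fin w ⊕ Fin r) where
  toFun g := ⟨fun q => q.elim (fun i => chi2 p (g.1.left i)) (fun _ => 1),
    Equiv.Perm.sumCongr g.1.right g.2⟩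
  map_one' := by
    apply SemidirectProduct.ext
    · funext q
      rcases q with i | j
      · change chi2 p 1 = 1
        rw [map_one]
      · rfl
    · change Equiv.Perm.sumCongr (1 : Perm (Fin w)) (1 : Perm (Fin r)) = 1
      exact Equiv.Perm.sumCongr_one
  map_mul' g g' := by
    apply SemidirectProduct.ext
    · funext q
      rcases q with i | j
      · change chi2 p (g.1.left i * g'.1.left (g.1.right⁻¹ i)) =
          chi2 p (g.1.left i) * chi2 p (g'.1.left (g.1.right⁻¹ i))
        rw [map_mul]
      · rfl
    · change Equiv.Perm.sumCongr (g.1.right * g'.1.right) (g.2 * g'.2) =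
        Equiv.Perm.sumCongr g.1.right g.2 * Equiv.Perm.sumCongr g'.1.right g'.2
      exact (Equiv.Perm.sumCongr_mul _ _ _ _).symm

/-- the local group acts on `Fin w ⊕ Fin r` by signed permutations: `EE` trivially, `u` by the
signs `chi2 (u i)`, `σ` and `τ` by permutations -/
noncomputable def signL (p w r : ℕ) [Fact p.Prime] : LL p w r →* SPerm (Fin w ⊕ Fin r) :=
  (signW p w r).comp SemidirectProduct.rightHom

end Pool.Agent.Helper41.SST
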