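import Pool.Agent.Helper41.SST.PermLift

/-!
# SST-05 AffLift: an honest lift of the affine group of the line

PROOF. Let `c` be a generator of the cyclic group `(ZMod p)ˣ` (`IsCyclic.exists_generator`), `c ≠ 1` as `p ≠ 2`. For a scalar
`a : ℂˣ` let `a • M` be the product in `GL` with the scalar matrix (`Units.map (algebraMap ..)`, or `Units.mk` of `a • M`); it is a
lift of the same permutation, and `(a • M) ^ n = a ^ n • M ^ n`.
(1) The translation `x ↦ 1 + x` is even: its `p`-th power is `1` and `p` is odd, so its sign `s` satisfies `s = s ^ p = 1`. So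
`perm_lift` gives `N₀` with `IsLift G 1 (fun x => 1 + x) N₀`; then `N₀ ^ k` lifts `x ↦ k + x` (induction, `IsLift.mul`), and
`N₀ ^ p` lifts the identity; by `lift_unique` (with `M = 1`) `N₀ ^ p = s • 1`; with `a ^ p = s⁻¹`
(`IsAlgClosed.exists_pow_nat_eq`) `N₁ = a • N₀` has `N₁ ^ p = 1`.
(2) In the same way `C` with `IsLift G (chi2 p c) (fun x => c * x) C` and `C ^ (p - 1) = 1` (`chi2` is by definition the sign of
the permutation `x ↦ c * x`; `C ^ k` lifts `x ↦ c ^ k * x` with the sign `chi2 p (c ^ k)`, and `c ^ (p - 1) = 1`).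
(3) `C * N₁ * C⁻¹` and `N₁ ^ v`, `v = (c : ZMod p).val`, are both lifts of `x ↦ c + x` with the sign `1` (`C⁻¹` lifts
`x ↦ c⁻¹ * x` with the same sign; or compare `C * N₁` and `N₁ ^ v * C`, which both lift `x ↦ c + c * x` with the sign `chi2 p c`). So
`C * N₁ = l • (N₁ ^ v * C)` with `l : ℂˣ`; taking `p`-th powers of `C * N₁ * C⁻¹ = l • N₁ ^ v` gives `l ^ p = 1`.
(4) Let `k = ((c - 1 : ZMod p)⁻¹).val`, so that `k * (v - 1) = 1` in `ZMod p` (`v ≥ 1`). Put `μ = l ^ k`, `N = μ • N₁`. Then `N ^ p = 1` and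
`C * N * C⁻¹ = μ l • N₁ ^ v = (μ * l * μ⁻¹ ^ v) • N ^ v = N ^ v`, because `μ ^ (v - 1) = l ^ (k * (v - 1)) = l` (`l ^ p = 1`).
(5) `T`: the homomorphism of the cyclic group `Multiplicative (ZMod p)` with `T (ofAdd e) = N ^ e.val`
(`monoidHomOfForallMemZpowers` with generator `ofAdd 1`, or directly: `ZMod.val_add`, `pow_eq_pow_mod`). `S`:
`monoidHomOfForallMemZpowers` with the generator `c`, `S (c ^ k) = C ^ k`. All three statements hold for the generators and follow
for the powers by induction.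
-/

set_option autoImplicit false

open Equiv Matrix

namespace Pool.Agent.Helper41.SST

set_option linter.unusedSectionVars false

section

variable {ι K : Type} [Fintype ι] [DecidableEq ι] [Fintype K] [DecidableEq K]

private noncomputable def sc (K : Type) [Fintype K] [DecidableEq K] : ℂˣ →* GL K ℂ :=
  Units.map (algebraMap ℂ (Matrix K K ℂ)).toMonoidHom

private theorem sc_mul_coe (a : ℂˣ) (M : GL K ℂ) :
    ((sc K a * M : GL K ℂ) : Matrix K K ℂ) = (a : ℂ) • (M : Matrix K K ℂ) := by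
  rw [Units.val_mul, Algebra.smul_def]
  rfl

private theorem sc_comm (a : ℂˣ) (M : GL K ℂ) : sc K a * M = M * sc K a := by
  apply Units.ext
  rw [Units.val_mul, Units.val_mul]
  exact Algebra.commutes _ _

private theorem sc_mul_pow (a : ℂˣ) (M : GL K ℂ) (n : ℕ) :
    (sc K a * M) ^ n = sc K (a ^ n) * M ^ n := by
  have h : Commute (sc K a) M := sc_comm a M
  rw [h.mul_pow, map_pow]

private theorem sc_inj [Nonempty K] {a b : ℂˣ} (h : sc K a = sc K b) : a = b := by
  have h1 : algebraMap ℂ (Matrix K K ℂ) (a : ℂ) = algebraMap ℂ (Matrix K K ℂ) (b : ℂ) :=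
    congrArg Units.val h
  exact Units.ext ((algebraMap ℂ (Matrix K K ℂ)).injective h1)

private theorem lift_sc {G : ι → Matrix K K ℂ} {s : ℤˣ} {π : ι → ι} {M : GL K ℂ}
    (hM : IsLift G s π M) (a : ℂˣ) : IsLift G s π (sc K a * M) := by
  intro x
  rw [sc_mul_coe, smul_mul_assoc, hM x, mul_smul_comm, smul_comm]

private theorem lift_congr {G : ι → Matrix K K ℂ} {s s' : ℤˣ} {π π' : ι → ι} {M : GL K ℂ}
    (hM : IsLift G s π M) (hs : s = s') (hπ : ∀ x, π x = π' x) : IsLift G s' π' M := by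
  intro x
  rw [← hs, ← hπ]
  exact hM x

private theorem lift_pow {G : ι → Matrix K K ℂ} {s : ℤˣ} {π : ι → ι} {M : GL K ℂ}
    (hM : IsLift G s π M) (k : ℕ) : IsLift G (s ^ k) (π^[k]) (M ^ k) := by
  induction k with
  | zero =>
    rw [pow_zero, pow_zero]
    exact IsLift.one G
  | succ k ih =>
    rw [pow_succ, pow_succ]
    exact ih.mul hM

private theorem lift_eq {G : ι → Matrix K K ℂ} (hG : Gam G) (π : Perm ι) {s : ℤˣ} {M M' : GL K ℂ}
    (hM : IsLift G s π M) (hM' : IsLift G s π M') : ∃ c : ℂˣ, M' = sc K c * M := by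
  obtain ⟨c, hc⟩ := lift_unique hG π hM hM'
  exact ⟨c, Units.ext (by rw [sc_mul_coe, hc])⟩

/-- normalization: a lift of a permutation of order dividing `n` -/
private theorem lift_norm {G : ι → Matrix K K ℂ} (hG : Gam G) {s : ℤˣ} {π : ι → ι} {M : GL K ℂ}
    (hM : IsLift G s π M) {n : ℕ} (hn : 0 < n) (hs : s ^ n = 1) (hπ : ∀ x, π^[n] x = x) :
    ∃ M' : GL K ℂ, IsLift G s π M' ∧ M' ^ n = 1 := by
  have h1 : IsLift G 1 (1 : Perm ι) (M ^ n) := lift_congr (lift_pow hM n) hs hπ
  obtain ⟨c, hc⟩ := lift_eq hG (1 : Perm ι) (IsLift.one G) h1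
  rw [mul_one] at hc
  obtain ⟨a, ha⟩ := IsAlgClosed.exists_pow_nat_eq ((c⁻¹ : ℂˣ) : ℂ) hn
  have ha0 : a ≠ 0 := by
    rintro rfl
    rw [zero_pow hn.ne'] at ha
    exact (c⁻¹).ne_zero ha.symm
  refine ⟨sc K (Units.mk0 a ha0) * M, lift_sc hM _, ?_⟩
  have h2 : (Units.mk0 a ha0) ^ n = c⁻¹ := Units.ext (by
    rw [Units.val_pow_eq_pow_val, Units.val_mk0, ha])
  rw [sc_mul_pow, h2, hc, ← map_mul, inv_mul_cancel, map_one]

end

private theorem iter_add (p : ℕ) (k : ℕ) (x : ZMod p) :
    (fun x : ZMod p => 1 + x)^[k] x = (k : ZMod p) + x := by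
  induction k generalizing x with
  | zero => simp
  | succ k ih =>
    rw [Function.iterate_succ_apply, ih]
    push_cast
    ring

private theorem iter_mul (p : ℕ) (c : (ZMod p)ˣ) (k : ℕ) (x : ZMod p) :
    (fun x : ZMod p => (c : ZMod p) * x)^[k] x = ((c ^ k : (ZMod p)ˣ) : ZMod p) * x := by
  induction k generalizing x with
  | zero => simp
  | succ k ih =>
    rw [Function.iterate_succ_apply, ih]
    push_cast
    ring

/-- the translation is even -/
private theorem sign_tr (p : ℕ) [Fact p.Prime] (hp : p ≠ 2) :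
    Perm.sign (Equiv.addLeft (1 : ZMod p)) = 1 := by
  have h1 : (Equiv.addLeft (1 : ZMod p)) ^ p = 1 := by
    ext1 x
    have h2 : ∀ k : ℕ, ((Equiv.addLeft (1 : ZMod p)) ^ k) x = (k : ZMod p) + x := by
      intro k
      rw [← iter_add p k x, ← Equiv.Perm.iterate_eq_pow]
      rfl
    rw [h2, ZMod.natCast_self, zero_add, Equiv.Perm.one_apply]
  have h3 := congrArg Perm.sign h1
  rw [map_pow, map_one] at h3
  rcases Int.units_eq_one_or (Perm.sign (Equiv.addLeft (1 : ZMod p))) with h | h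
  · exact h
  · rw [h] at h3
    have hodd : Odd p := (Fact.out : p.Prime).odd_of_ne_two hp
    rw [hodd.neg_one_pow] at h3
    exact absurd h3 (by decide)

theorem aff_lift (p : ℕ) [Fact p.Prime] (hp : p ≠ 2) {K : Type} [Fintype K] [DecidableEq K]
    {G : ZMod p → Matrix K K ℂ} (hG : Gam G) :
    ∃ (T : Multiplicative (ZMod p) →* GL K ℂ) (S : (ZMod p)ˣ →* GL K ℂ),
      (∀ e : ZMod p, IsLift G 1 (fun x => e + x) (T (Multiplicative.ofAdd e))) ∧
      (∀ u : (ZMod p)ˣ, IsLift G (chi2 p u) (fun x => (u : ZMod p) * x) (S u)) ∧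
      ∀ (u : (ZMod p)ˣ) (e : ZMod p), S u * T (Multiplicative.ofAdd e) =
        T (Multiplicative.ofAdd ((u : ZMod p) * e)) * S u := by
  have hpp : p.Prime := Fact.out
  rcases isEmpty_or_nonempty K with hK | hK
  · exact ⟨1, 1, fun e x => Subsingleton.elim _ _, fun u x => Subsingleton.elim _ _,
      fun u e => Units.ext (Subsingleton.elim _ _)⟩
  -- the translation
  obtain ⟨N₀, hN₀⟩ := perm_lift hG (Equiv.addLeft (1 : ZMod p))
  rw [sign_tr p hp] at hN₀
  obtain ⟨N₁, hN₁, hN₁p⟩ := lift_norm hG (π := fun x => 1 + x) (lift_congr hN₀ rfl fun _ => rfl)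
    hpp.pos (one_pow _) (fun x => by rw [iter_add, ZMod.natCast_self, zero_add])
  -- the multiplication with a generator
  obtain ⟨c, hc⟩ := IsCyclic.exists_generator (α := (ZMod p)ˣ)
  have hcard : orderOf c = p - 1 := by
    rw [orderOf_eq_card_of_forall_mem_zpowers hc, Nat.card_eq_fintype_card, ZMod.card_units]
  have hp1 : 0 < p - 1 := by
    have := hpp.two_le
    omega
  have hcp : c ^ (p - 1) = 1 := by
    rw [← hcard]
    exact pow_orderOf_eq_one c
  obtain ⟨C₀, hC₀⟩ := perm_lift hG (MulAction.toPermHom (ZMod p)ˣ (ZMod p) c)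
  have hC₀' : IsLift G (chi2 p c) (fun x => (c : ZMod p) * x) C₀ := hC₀
  obtain ⟨C, hC, hCp⟩ := lift_norm hG hC₀' hp1 (by rw [← map_pow, hcp, map_one])
    (fun x => by rw [iter_mul, hcp, Units.val_one, one_mul])
  -- comparison
  set v := (c : ZMod p).val with hv
  have hcv : ((v : ℕ) : ZMod p) = (c : ZMod p) := ZMod.natCast_zmod_val _
  let π : Perm (ZMod p) := (MulAction.toPermHom (ZMod p)ˣ (ZMod p) c).trans
    (Equiv.addLeft (c : ZMod p))
  have hπ : ∀ x, π x = (c : ZMod p) + (c : ZMod p) * x := fun _ => rfl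
  have h1 : IsLift G (chi2 p c) π (C * N₁) := by
    have := hC.mul hN₁
    refine lift_congr this (mul_one _) fun x => ?_
    rw [hπ]
    change (c : ZMod p) * (1 + x) = _
    ring
  have h2 : IsLift G (chi2 p c) π (N₁ ^ v * C) := by
    have := (lift_pow hN₁ v).mul hC
    refine lift_congr this (by rw [one_pow, one_mul]) fun x => ?_
    rw [hπ, Function.comp_apply, iter_add, hcv]
  obtain ⟨l, hl⟩ := lift_eq hG π h2 h1
  have hconj : C * N₁ * C⁻¹ = sc K l * N₁ ^ v := by
    rw [hl]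
    group
  have hlp : l ^ p = 1 := by
    have h3 : (C * N₁ * C⁻¹) ^ p = 1 := by
      rw [conj_pow, hN₁p, mul_one, mul_inv_cancel]
    rw [hconj, sc_mul_pow, ← pow_mul, mul_comm v p, pow_mul, hN₁p, one_pow, mul_one] at h3
    exact sc_inj (h3.trans (map_one (sc K)).symm)
  -- the correction
  have hc1 : (c : ZMod p) - 1 ≠ 0 := by
    intro h
    have h3 : c = 1 := Units.ext (by rw [Units.val_one]; exact sub_eq_zero.1 h)
    rw [h3, orderOf_one] at hcard
    have h4 := hpp.two_le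
    have h5 : p ≠ 2 := hp
    omega
  set k := (((c : ZMod p) - 1)⁻¹).val with hk
  have hkc : ((k : ℕ) : ZMod p) = ((c : ZMod p) - 1)⁻¹ := ZMod.natCast_zmod_val _
  have hkv : l ^ (k * v) = l * l ^ k := by
    have h3 : ((k * v : ℕ) : ZMod p) = ((1 + k : ℕ) : ZMod p) := by
      push_cast
      rw [hkc, hcv]
      field_simp
      ring
    have h4 : k * v % p = (1 + k) % p := (ZMod.natCast_eq_natCast_iff' _ _ _).1 h3
    rw [pow_eq_pow_mod (k * v) hlp, h4, ← pow_eq_pow_mod (1 + k) hlp, pow_add, pow_one]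
  let N : GL K ℂ := sc K (l ^ k) * N₁
  have hN : IsLift G 1 (fun x => 1 + x) N := lift_sc hN₁ _
  have hNp : N ^ p = 1 := by
    change (sc K (l ^ k) * N₁) ^ p = 1
    rw [sc_mul_pow, ← pow_mul, mul_comm k p, pow_mul, hlp, one_pow, map_one, one_mul, hN₁p]
  have hCN : C * N = N ^ v * C := by
    change C * (sc K (l ^ k) * N₁) = (sc K (l ^ k) * N₁) ^ v * C
    rw [sc_mul_pow, ← pow_mul, hkv, ← mul_assoc, ← sc_comm, mul_assoc, hl, ← mul_assoc,
      ← map_mul, mul_comm (l ^ k) l, mul_assoc]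
  -- the homomorphisms
  let T : Multiplicative (ZMod p) →* GL K ℂ :=
    { toFun := fun e => N ^ (Multiplicative.toAdd e).val
      map_one' := by
        rw [toAdd_one, ZMod.val_zero, pow_zero]
      map_mul' := fun e e' => by
        rw [toAdd_mul, ← pow_add, ZMod.val_add, ← pow_eq_pow_mod _ hNp] }
  have hT : ∀ e : ZMod p, T (Multiplicative.ofAdd e) = N ^ e.val := fun _ => rfl
  have hdvd : orderOf C ∣ orderOf c := by
    rw [hcard]
    exact orderOf_dvd_of_pow_eq_one hCp
  let S : (ZMod p)ˣ →* GL K ℂ := monoidHomOfForallMemZpowers hc hdvd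
  have hSc : S c = C := monoidHomOfForallMemZpowers_apply_gen hc hdvd
  have hpow : ∀ u : (ZMod p)ˣ, ∃ k : ℕ, c ^ k = u := by
    intro u
    have h3 := mem_powers_iff_mem_zpowers.2 (hc u)
    exact (Submonoid.mem_powers_iff _ _).1 h3
  refine ⟨T, S, ?_, ?_, ?_⟩
  · intro e
    rw [hT]
    refine lift_congr (lift_pow hN e.val) (one_pow _) fun x => ?_
    rw [iter_add, ZMod.natCast_zmod_val]
  · intro u
    obtain ⟨n, rfl⟩ := hpow u
    rw [map_pow, map_pow, hSc]
    refine lift_congr (lift_pow hC n) rfl fun x => ?_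
    rw [iter_mul]
  · intro u e
    obtain ⟨n, rfl⟩ := hpow u
    have h3 : ∀ e : ZMod p, C * T (Multiplicative.ofAdd e) =
        T (Multiplicative.ofAdd ((c : ZMod p) * e)) * C := by
      intro e
      rw [hT, hT, ZMod.val_mul, ← pow_eq_pow_mod _ hNp]
      have h4 : C * N * C⁻¹ = N ^ v := by rw [hCN, mul_inv_cancel_right]
      have h5 : C * N ^ e.val * C⁻¹ = N ^ (v * e.val) := by
        rw [← conj_pow, h4, pow_mul]
      rw [← h5, inv_mul_cancel_right]
    rw [map_pow, hSc]
    induction n generalizing e with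
    | zero => simp
    | succ n ih =>
      rw [pow_succ C, mul_assoc, h3, ← mul_assoc, ih, mul_assoc, pow_succ c, Units.val_mul]
      congr 3
      ring

end Pool.Agent.Helper41.SST
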