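import Pool.Agent.Helper41.SST.TDefs

/-!
# SST-03 GamEx: `2 m + 1` anticommuting involutions of size `2 ^ m`

PROOF. Induction on `m`. `m = 0`: `ι` has one element and `K` has one element: `G x = 1` (`ι` is a subsingleton, so `anti` is
empty; every matrix is a multiple of `1 = G x * G x`).
Step: it suffices to treat one pair `(ι, K)` with the right cardinalities (transport along `ι' ≃ ι` and
`Matrix.reindexAlgEquiv ℂ ℂ (K ≃ K')`: `transport` below). Take `ι = Fin (2 * m + 1) ⊕ Fin 2`, `K = K₀ × Fin 2` (`K₀ = Fin (2 ^ m)`), and with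
`X = !![0, 1; 1, 0]`, `Z = !![1, 0; 0, -1]`, `Y = !![0, -I; I, 0]`: `G (inl i) = G₀ i ⊗ₖ X`, `G (inr 0) = 1 ⊗ₖ Y`,
`G (inr 1) = 1 ⊗ₖ Z`. Squares and anticommutation by `Matrix.mul_kronecker_mul`. Generation: let `S` be the algebra generated
by the `G x * G y`. `G (inl i) * G (inl j) = (G₀ i * G₀ j) ⊗ₖ 1`, so `S` contains all `A ⊗ₖ 1` (induction hypothesis, the map
`A ↦ A ⊗ₖ 1` is an algebra homomorphism). `G (inr 0) * G (inr 1) = 1 ⊗ₖ (Y * Z)`, `Y * Z = I • X`; for a fixed `i`,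
`(G₀ i ⊗ₖ 1) * (G (inl i) * G (inr 0)) = 1 ⊗ₖ (X * Y)`, `X * Y = I • Z`. So `1 ⊗ₖ X` and `1 ⊗ₖ Z` are in `S`, hence
`1 ⊗ₖ B` for all `2 × 2` matrices `B` (`E₀₀ = (1 + Z) / 2`, `E₁₁ = (1 - Z) / 2`, `E₀₁ = E₀₀ * X`, `E₁₀ = X * E₀₀`), hence all
`A ⊗ₖ B`, in particular the matrix units.
-/

set_option autoImplicit false

open Equiv Matrix

namespace Pool.Agent.Helper41.SST

theorem transport {ι K ι' K' : Type} [Fintype ι] [DecidableEq ι] [Fintype K] [DecidableEq K]
    [Fintype ι'] [DecidableEq ι'] [Fintype K'] [DecidableEq K'] (a : ι' ≃ ι) (b : K ≃ K')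
    {G : ι → Matrix K K ℂ} (hG : Gam G) :
    Gam fun i => Matrix.reindexAlgEquiv ℂ ℂ b (G (a i)) := by
  refine ⟨fun x => ?_, fun x y h => ?_, ?_⟩
  · rw [← map_mul, hG.sq, map_one]
  · rw [← map_mul, hG.anti _ _ (fun h1 => h (a.injective h1)), map_neg, map_mul]
  · rw [eq_top_iff]
    intro M _
    have h1 : (Matrix.reindexAlgEquiv ℂ ℂ b).symm M ∈
        Algebra.adjoin ℂ {M : Matrix K K ℂ | ∃ x y, M = G x * G y} := by
      rw [hG.gen]
      exact Algebra.mem_top
    have h2 : M ∈ (Algebra.adjoin ℂ {M : Matrix K K ℂ | ∃ x y, M = G x * G y}).map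
        (Matrix.reindexAlgEquiv ℂ ℂ b).toAlgHom :=
      ⟨_, h1, (Matrix.reindexAlgEquiv ℂ ℂ b).apply_symm_apply M⟩
    rw [AlgHom.map_adjoin] at h2
    refine Algebra.adjoin_mono ?_ h2
    rintro _ ⟨_, ⟨x, y, rfl⟩, rfl⟩
    refine ⟨a.symm x, a.symm y, ?_⟩
    rw [a.apply_symm_apply, a.apply_symm_apply]
    exact map_mul (Matrix.reindexAlgEquiv ℂ ℂ b) _ _

private def pX : Matrix (Fin 2) (Fin 2) ℂ := !![0, 1; 1, 0]

private def pY : Matrix (Fin 2) (Fin 2) ℂ := !![0, -Complex.I; Complex.I, 0]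

private def pZ : Matrix (Fin 2) (Fin 2) ℂ := !![1, 0; 0, -1]

private theorem pXX : pX * pX = 1 := by
  ext i j; fin_cases i <;> fin_cases j <;> simp [pX, Matrix.mul_apply, Fin.sum_univ_two]

private theorem pYY : pY * pY = 1 := by
  ext i j; fin_cases i <;> fin_cases j <;> simp [pY, Matrix.mul_apply, Fin.sum_univ_two]

private theorem pZZ : pZ * pZ = 1 := by
  ext i j; fin_cases i <;> fin_cases j <;> simp [pZ, Matrix.mul_apply, Fin.sum_univ_two]

private theorem pYZ : pY * pZ = Complex.I • pX := by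
  ext i j; fin_cases i <;> fin_cases j <;> simp [pX, pY, pZ, Matrix.mul_apply, Fin.sum_univ_two]

private theorem pZY : pZ * pY = -(pY * pZ) := by
  ext i j; fin_cases i <;> fin_cases j <;> simp [pY, pZ, Matrix.mul_apply, Fin.sum_univ_two]

private theorem pXY : pX * pY = Complex.I • pZ := by
  ext i j; fin_cases i <;> fin_cases j <;> simp [pX, pY, pZ, Matrix.mul_apply, Fin.sum_univ_two]

private theorem pYX : pX * pY = -(pY * pX) := by
  ext i j; fin_cases i <;> fin_cases j <;> simp [pX, pY, Matrix.mul_apply, Fin.sum_univ_two]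

private theorem pXZ : pX * pZ = -(pZ * pX) := by
  ext i j; fin_cases i <;> fin_cases j <;> simp [pX, pZ, Matrix.mul_apply, Fin.sum_univ_two]

private theorem p_span (B : Matrix (Fin 2) (Fin 2) ℂ) :
    B = ((B 0 0 + B 1 1) / 2) • (1 : Matrix (Fin 2) (Fin 2) ℂ) + ((B 0 0 - B 1 1) / 2) • pZ +
      ((B 0 1 + B 1 0) / 2) • pX + ((B 1 0 - B 0 1) / 2) • (pX * pZ) := by
  ext i j
  fin_cases i <;> fin_cases j <;> simp [pX, pZ, Matrix.mul_apply, Fin.sum_univ_two] <;> ring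

section kron

variable {n : ℕ}

private abbrev kr (A : Matrix (Fin n) (Fin n) ℂ) (B : Matrix (Fin 2) (Fin 2) ℂ) :
    Matrix (Fin n × Fin 2) (Fin n × Fin 2) ℂ := Matrix.kroneckerMap (fun a b => a * b) A B

private theorem kr_mul (A A' : Matrix (Fin n) (Fin n) ℂ) (B B' : Matrix (Fin 2) (Fin 2) ℂ) :
    kr A B * kr A' B' = kr (A * A') (B * B') := (Matrix.mul_kronecker_mul A A' B B').symm

private theorem kr_one : kr (1 : Matrix (Fin n) (Fin n) ℂ) 1 = 1 := Matrix.one_kronecker_one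

private theorem kr_neg_left (A : Matrix (Fin n) (Fin n) ℂ) (B : Matrix (Fin 2) (Fin 2) ℂ) :
    kr (-A) B = -kr A B := by
  ext ⟨i, j⟩ ⟨k, l⟩
  simp [Matrix.kroneckerMap_apply]

private theorem kr_neg_right (A : Matrix (Fin n) (Fin n) ℂ) (B : Matrix (Fin 2) (Fin 2) ℂ) :
    kr A (-B) = -kr A B := by
  ext ⟨i, j⟩ ⟨k, l⟩
  simp [Matrix.kroneckerMap_apply]

private theorem kr_add_left (A A' : Matrix (Fin n) (Fin n) ℂ) (B : Matrix (Fin 2) (Fin 2) ℂ) :
    kr (A + A') B = kr A B + kr A' B := by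
  ext ⟨i, j⟩ ⟨k, l⟩
  simp [Matrix.kroneckerMap_apply, add_mul]

private theorem kr_add_right (A : Matrix (Fin n) (Fin n) ℂ) (B B' : Matrix (Fin 2) (Fin 2) ℂ) :
    kr A (B + B') = kr A B + kr A B' := by
  ext ⟨i, j⟩ ⟨k, l⟩
  simp [Matrix.kroneckerMap_apply, mul_add]

private theorem kr_smul_left (c : ℂ) (A : Matrix (Fin n) (Fin n) ℂ)
    (B : Matrix (Fin 2) (Fin 2) ℂ) : kr (c • A) B = c • kr A B := by
  ext ⟨i, j⟩ ⟨k, l⟩
  simp [Matrix.kroneckerMap_apply, mul_assoc]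

private theorem kr_smul_right (c : ℂ) (A : Matrix (Fin n) (Fin n) ℂ)
    (B : Matrix (Fin 2) (Fin 2) ℂ) : kr A (c • B) = c • kr A B := by
  ext ⟨i, j⟩ ⟨k, l⟩
  simp [Matrix.kroneckerMap_apply]
  ring

private theorem kr_decomp (M : Matrix (Fin n × Fin 2) (Fin n × Fin 2) ℂ) :
    M = ∑ a : Fin 2, ∑ b : Fin 2, kr (Matrix.of fun i j => M (i, a) (j, b))
      (Matrix.single a b 1) := by
  ext ⟨i, a⟩ ⟨j, b⟩
  simp only [Matrix.sum_apply, Matrix.kroneckerMap_apply, Matrix.of_apply, Fin.sum_univ_two,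
    Matrix.single_apply]
  fin_cases a <;> fin_cases b <;> simp

end kron

private theorem gam_step {n : ℕ} {ι : Type} [Fintype ι] [DecidableEq ι] (i₀ : ι)
    {G₀ : ι → Matrix (Fin n) (Fin n) ℂ} (hG : Gam G₀) :
    Gam (Sum.elim (fun i => kr (G₀ i) pX) (fun j : Fin 2 => if j = 0 then kr 1 pY else kr 1 pZ)) := by
  set G : ι ⊕ Fin 2 → Matrix (Fin n × Fin 2) (Fin n × Fin 2) ℂ :=
    Sum.elim (fun i => kr (G₀ i) pX) (fun j : Fin 2 => if j = 0 then kr 1 pY else kr 1 pZ) with hGd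
  have hl : ∀ i, G (Sum.inl i) = kr (G₀ i) pX := fun i => rfl
  have h0 : G (Sum.inr 0) = kr 1 pY := rfl
  have h1 : G (Sum.inr 1) = kr 1 pZ := rfl
  refine ⟨?_, ?_, ?_⟩
  · rintro (i | j)
    · rw [hl, kr_mul, hG.sq, pXX, kr_one]
    · fin_cases j
      · change G (Sum.inr 0) * G (Sum.inr 0) = 1
        rw [h0, kr_mul, one_mul, pYY, kr_one]
      · change G (Sum.inr 1) * G (Sum.inr 1) = 1
        rw [h1, kr_mul, one_mul, pZZ, kr_one]
  · rintro (i | j) (i' | j') h
    · rw [hl, hl, kr_mul, kr_mul, hG.anti i i' (fun h2 => h (congrArg Sum.inl h2)), kr_neg_left]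
    · fin_cases j'
      · change G (Sum.inl i) * G (Sum.inr 0) = -(G (Sum.inr 0) * G (Sum.inl i))
        rw [h0, hl, kr_mul, kr_mul, pYX, kr_neg_right, mul_one, one_mul]
      · change G (Sum.inl i) * G (Sum.inr 1) = -(G (Sum.inr 1) * G (Sum.inl i))
        rw [h1, hl, kr_mul, kr_mul, pXZ, kr_neg_right, mul_one, one_mul]
    · fin_cases j
      · change G (Sum.inr 0) * G (Sum.inl i') = -(G (Sum.inl i') * G (Sum.inr 0))
        rw [h0, hl, kr_mul, kr_mul, pYX, kr_neg_right, mul_one, one_mul, neg_neg]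
      · change G (Sum.inr 1) * G (Sum.inl i') = -(G (Sum.inl i') * G (Sum.inr 1))
        rw [h1, hl, kr_mul, kr_mul, pXZ, kr_neg_right, mul_one, one_mul, neg_neg]
    · fin_cases j <;> fin_cases j'
      · exact absurd rfl h
      · change G (Sum.inr 0) * G (Sum.inr 1) = -(G (Sum.inr 1) * G (Sum.inr 0))
        rw [h0, h1, kr_mul, kr_mul, pZY, kr_neg_right, neg_neg]
      · change G (Sum.inr 1) * G (Sum.inr 0) = -(G (Sum.inr 0) * G (Sum.inr 1))
        rw [h0, h1, kr_mul, kr_mul, pZY, kr_neg_right]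
      · exact absurd rfl h
  · obtain ⟨S, hS⟩ : ∃ S, S = Algebra.adjoin ℂ
        {M : Matrix (Fin n × Fin 2) (Fin n × Fin 2) ℂ | ∃ x y, M = G x * G y} := ⟨_, rfl⟩
    rw [← hS]
    have hm : ∀ x y, G x * G y ∈ S := by
      intro x y
      rw [hS]
      exact Algebra.subset_adjoin ⟨x, y, rfl⟩
    have s1 : ∀ A : Matrix (Fin n) (Fin n) ℂ, kr A 1 ∈ S := by
      intro A
      have hA : A ∈ Algebra.adjoin ℂ {M : Matrix (Fin n) (Fin n) ℂ | ∃ x y, M = G₀ x * G₀ y} := by
        rw [hG.gen]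
        exact Algebra.mem_top
      induction hA using Algebra.adjoin_induction with
      | mem A hA =>
        obtain ⟨x, y, rfl⟩ := hA
        have h2 := hm (Sum.inl x) (Sum.inl y)
        rwa [hl, hl, kr_mul, pXX] at h2
      | algebraMap r =>
        have h2 : kr (algebraMap ℂ (Matrix (Fin n) (Fin n) ℂ) r) 1 = algebraMap ℂ _ r := by
          rw [Algebra.algebraMap_eq_smul_one, Algebra.algebraMap_eq_smul_one, kr_smul_left, kr_one]
        rw [h2]
        exact S.algebraMap_mem r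
      | add A B _ _ hA hB =>
        rw [kr_add_left]
        exact S.add_mem hA hB
      | mul A B _ _ hA hB =>
        have h2 : kr (A * B) 1 = kr A 1 * kr B 1 := by rw [kr_mul, one_mul]
        rw [h2]
        exact S.mul_mem hA hB
    have s2 : kr (1 : Matrix (Fin n) (Fin n) ℂ) pX ∈ S := by
      have h2 := hm (Sum.inr 0) (Sum.inr 1)
      rw [h0, h1, kr_mul, one_mul, pYZ, kr_smul_right] at h2
      have h3 := S.smul_mem h2 (-Complex.I)
      rwa [smul_smul, neg_mul, Complex.I_mul_I, neg_neg, one_smul] at h3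
    have s3 : kr (1 : Matrix (Fin n) (Fin n) ℂ) pZ ∈ S := by
      have h2 := S.mul_mem (s1 (G₀ i₀)) (hm (Sum.inl i₀) (Sum.inr 0))
      rw [hl, h0, kr_mul, kr_mul, mul_one, one_mul, hG.sq, pXY, kr_smul_right] at h2
      have h3 := S.smul_mem h2 (-Complex.I)
      rwa [smul_smul, neg_mul, Complex.I_mul_I, neg_neg, one_smul] at h3
    have s4 : ∀ B, kr (1 : Matrix (Fin n) (Fin n) ℂ) B ∈ S := by
      intro B
      rw [p_span B, kr_add_right, kr_add_right, kr_add_right, kr_smul_right, kr_smul_right,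
        kr_smul_right, kr_smul_right, kr_one]
      have h2 : kr (1 : Matrix (Fin n) (Fin n) ℂ) (pX * pZ) = kr 1 pX * kr 1 pZ := by
        rw [kr_mul, one_mul]
      rw [h2]
      exact S.add_mem (S.add_mem (S.add_mem (S.smul_mem S.one_mem _) (S.smul_mem s3 _))
        (S.smul_mem s2 _)) (S.smul_mem (S.mul_mem s2 s3) _)
    rw [eq_top_iff]
    intro M _
    rw [kr_decomp M]
    refine S.sum_mem fun a _ => S.sum_mem fun b _ => ?_
    have h2 : ∀ (A : Matrix (Fin n) (Fin n) ℂ) (B : Matrix (Fin 2) (Fin 2) ℂ),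
        kr A B = kr A 1 * kr 1 B := by
      intro A B
      rw [kr_mul, mul_one, one_mul]
    rw [h2]
    exact S.mul_mem (s1 _) (s4 _)

theorem gam_exists (m : ℕ) (ι K : Type) [Fintype ι] [DecidableEq ι] [Fintype K] [DecidableEq K]
    (hι : Fintype.card ι = 2 * m + 1) (hK : Fintype.card K = 2 ^ m) :
    ∃ G : ι → Matrix K K ℂ, Gam G := by
  induction m generalizing ι K with
  | zero =>
    have hs : Subsingleton ι := Fintype.card_le_one_iff_subsingleton.1 (by omega)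
    have hs' : Subsingleton K := Fintype.card_le_one_iff_subsingleton.1 (by rw [hK]; simp)
    refine ⟨fun _ => 1, fun _ => mul_one 1, fun x y h => absurd (Subsingleton.elim x y) h, ?_⟩
    rw [eq_top_iff]
    intro M _
    have hne : Nonempty K := Fintype.card_pos_iff.1 (by rw [hK]; simp)
    obtain ⟨k⟩ := hne
    have h : M = algebraMap ℂ (Matrix K K ℂ) (M k k) := by
      ext i j
      rw [Subsingleton.elim i k, Subsingleton.elim j k, Matrix.algebraMap_matrix_apply, if_pos rfl]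
      rfl
    rw [h]
    exact Subalgebra.algebraMap_mem _ _
  | succ m ih =>
    obtain ⟨G₀, hG₀⟩ := ih (Fin (2 * m + 1)) (Fin (2 ^ m)) (Fintype.card_fin _) (Fintype.card_fin _)
    have h1 := gam_step (0 : Fin (2 * m + 1)) hG₀
    have e1 : Fintype.card ι = Fintype.card (Fin (2 * m + 1) ⊕ Fin 2) := by
      rw [hι, Fintype.card_sum, Fintype.card_fin, Fintype.card_fin]
      ring
    have e2 : Fintype.card (Fin (2 ^ m) × Fin 2) = Fintype.card K := by
      rw [hK, Fintype.card_prod, Fintype.card_fin, Fintype.card_fin]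
      ring
    exact ⟨_, transport (Fintype.equivOfCardEq e1) (Fintype.equivOfCardEq e2) h1⟩

end Pool.Agent.Helper41.SST
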