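import Pool.Agent.Helper41.SST.Tns

/-!
# SST-02 TnsSpan: the matrices at the places generate everything

PROOF. Let `S` be a subalgebra which contains all `plc i A`. For a finset `s` and a family `A` the matrix
`tns (fun i => if i ∈ s then A i else 1)` is in `S`: induction on `s` (`tns_one`; `insert a s`: it is
`plc a (A a) * tns (fun i => if i ∈ s then A i else 1)` by `tns_mul`). So every `tns A` is in `S`. The matrix unit
`Matrix.single f g 1` is `tns (fun i => Matrix.single (f i) (g i) 1)` (a product of zeros and ones:
`Finset.prod_ite_zero`, `funext_iff`). The matrix units span (`Matrix.matrix_eq_sum_single`).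
`adjoin_gen`: if `G` satisfies `Gam`, the algebra generated by the `plc i (G x) * plc i (G y)` contains all `plc i A`: the set of
`A` with `plc i A ∈ S` is a subalgebra (`plc_mul`, `plc_add`, `plc_one`, `plc_smul`; use `Subalgebra.comap` of an algebra
homomorphism `A ↦ plc i A`, or `Algebra.adjoin_induction` on `hG.gen`), it contains all `G x * G y`, so it is everything.
-/

set_option autoImplicit false

open Equiv Matrix

namespace Pool.Agent.Helper41.SST

variable {ι K : Type} [Fintype ι] [DecidableEq ι] [Fintype K] [DecidableEq K]

theorem plc_span (S : Subalgebra ℂ (Matrix (ι → K) (ι → K) ℂ))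
    (h : ∀ (i : ι) (A : Matrix K K ℂ), plc i A ∈ S) : S = ⊤ := by
  classical
  have h1 : ∀ (s : Finset ι) (A : ι → Matrix K K ℂ),
      tns (fun i => if i ∈ s then A i else 1) ∈ S := by
    intro s A
    induction s using Finset.induction_on with
    | empty =>
      simp only [Finset.notMem_empty, if_false]
      rw [tns_one]
      exact one_mem S
    | insert a s ha ih =>
      have h2 : tns (fun i => if i ∈ insert a s then A i else 1) =
          plc a (A a) * tns (fun i => if i ∈ s then A i else 1) := by
        rw [plc, tns_mul]
        congr 1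
        funext i
        by_cases hi : i = a
        · subst hi
          rw [Function.update_self, if_neg ha, if_pos (Finset.mem_insert_self _ _), mul_one]
        · rw [Function.update_of_ne hi, one_mul]
          by_cases his : i ∈ s
          · rw [if_pos his, if_pos (Finset.mem_insert_of_mem his)]
          · rw [if_neg his, if_neg (fun h3 => (Finset.mem_insert.1 h3).elim hi his)]
      rw [h2]
      exact mul_mem (h a _) ih
  have h2 : ∀ A : ι → Matrix K K ℂ, tns A ∈ S := by
    intro A
    have h3 := h1 Finset.univ A
    simp only [Finset.mem_univ, if_true] at h3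
    exact h3
  have h3 : ∀ f g : ι → K, Matrix.single f g (1 : ℂ) =
      tns (fun i => Matrix.single (f i) (g i) (1 : ℂ)) := by
    intro f g
    ext f' g'
    rw [Matrix.single_apply]
    change _ = ∏ i, (Matrix.single (f i) (g i) (1 : ℂ)) (f' i) (g' i)
    simp only [Matrix.single_apply]
    rw [Finset.prod_ite_zero, Finset.prod_const_one]
    congr 1
    apply propext
    constructor
    · rintro ⟨rfl, rfl⟩ i _
      exact ⟨rfl, rfl⟩
    · intro h4
      exact ⟨funext fun i => (h4 i (Finset.mem_univ i)).1,
        funext fun i => (h4 i (Finset.mem_univ i)).2⟩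
  rw [eq_top_iff]
  intro M _
  rw [Matrix.matrix_eq_sum_single M]
  refine sum_mem fun f _ => sum_mem fun g _ => ?_
  have h4 : Matrix.single f g (M f g) = M f g • Matrix.single f g (1 : ℂ) := by
    rw [Matrix.smul_single, smul_eq_mul, mul_one]
  rw [h4, h3]
  exact S.smul_mem (h2 _) _

theorem adjoin_gen {κ : Type} [Fintype κ] [DecidableEq κ] {G : κ → Matrix K K ℂ} (hG : Gam G) :
    Algebra.adjoin ℂ {M : Matrix (ι → K) (ι → K) ℂ | ∃ (i : ι) (x y : κ),
      M = plc i (G x) * plc i (G y)} = ⊤ := by
  refine plc_span _ fun i A => ?_
  have hA : A ∈ Algebra.adjoin ℂ {M : Matrix K K ℂ | ∃ x y, M = G x * G y} := by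
    rw [hG.gen]
    exact Algebra.mem_top
  induction hA using Algebra.adjoin_induction with
  | mem M hM =>
    obtain ⟨x, y, rfl⟩ := hM
    rw [← plc_mul]
    exact Algebra.subset_adjoin ⟨i, x, y, rfl⟩
  | algebraMap r =>
    rw [Algebra.algebraMap_eq_smul_one, plc_smul, plc_one]
    exact Subalgebra.smul_mem _ (one_mem _) r
  | add M N _ _ hM hN =>
    rw [plc_add]
    exact add_mem hM hN
  | mul M N _ _ hM hN =>
    rw [← plc_mul]
    exact mul_mem hM hN

end Pool.Agent.Helper41.SST
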