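import Pool.Agent.Helper41.SST.AffLift
import Pool.Agent.Helper41.SST.TnsSpan

/-!
# SST-06 LocHom: the local group acts on the tensor power

PROOF. `T`, `S` from `aff_lift`. All matrices below are units of `Matrix (Fin w → K) (Fin w → K) ℂ`; `tnsU A` (for `A : Fin w → GL K ℂ`) and
`prmU σ` are homomorphisms `(Fin w → GL K ℂ) →* GL (Fin w → K) ℂ` and `Perm (Fin w) →* GL (Fin w → K) ℂ` (`tns_mul`, `tns_one`,
`prm_mul`, `prm_one`; inverse = image of the inverse; e.g. `MonoidHom.toHomUnits`), with `prmU σ * tnsU A = tnsU (A ∘ σ⁻¹) * prmU σ` (`prm_tns`).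
* `N` on `EE p w`: `e ↦ tnsU (fun i => T (ofAdd (toAdd e i)))`, a homomorphism.
* `N` on `WW p w × Perm (Fin r)`: `((u, σ), τ) ↦ tnsU (fun i => S (u i)) * prmU σ`, a homomorphism: the product in `WW` is
  `(u, σ) (u', σ') = (i ↦ u i * u' (σ⁻¹ i), σ σ')` (`SemidirectProduct.mul_left`, `mulAutArrow`: `change`, see `permW` in
  `Helper81/AN/Defs.lean`).
* `N` on `LL`: `SemidirectProduct.lift`; the compatibility is `N(g) N(e) = N(actE g e) N(g)`, that is
  `S (u i) * T (e (σ⁻¹ i)) = T (u i * e (σ⁻¹ i)) * S (u i)` at every place (last statement of `aff_lift`).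
* The statement: `N g = tnsU (T (e i)) * tnsU (S (u i)) * prmU σ` for `g = (e, ((u, σ), τ))` (`SemidirectProduct.lift` is
  `fn a.left * fg a.right`). By `prm_plc` `prm σ * plc i (G x) = plc (σ i) (G x) * prm σ`, by `tns_plc` with the lift property of
  `S (u (σ i))` the tensor product of the `S (u j)` moves `plc (σ i) (G x)` to `chi2 (u (σ i))` times `plc (σ i) (G (u (σ i) * x))`
  (`plc_smul`), and the tensor product of the `T (e j)` moves this to `plc (σ i) (G (e (σ i) + u (σ i) * x))`.
-/

set_option autoImplicit false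

open Equiv Matrix

namespace Pool.Agent.Helper41.SST

open Pool.Agent.Helper81.AN

private noncomputable def tnsU (w : ℕ) (K : Type) [Fintype K] [DecidableEq K] :
    (Fin w → GL K ℂ) →* GL (Fin w → K) ℂ :=
  MonoidHom.toHomUnits
    { toFun := fun A => tns fun i => (A i : Matrix K K ℂ)
      map_one' := tns_one
      map_mul' := fun A B => (tns_mul _ _).symm }

private theorem tnsU_coe {w : ℕ} {K : Type} [Fintype K] [DecidableEq K] (A : Fin w → GL K ℂ) :
    (tnsU w K A : Matrix (Fin w → K) (Fin w → K) ℂ) = tns fun i => (A i : Matrix K K ℂ) := rfl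

private noncomputable def prmU (w : ℕ) (K : Type) [Fintype K] [DecidableEq K] :
    Perm (Fin w) →* GL (Fin w → K) ℂ :=
  MonoidHom.toHomUnits
    { toFun := fun σ => prm K σ
      map_one' := prm_one
      map_mul' := fun σ τ => (prm_mul σ τ).symm }

private theorem prmU_coe {w : ℕ} {K : Type} [Fintype K] [DecidableEq K] (σ : Perm (Fin w)) :
    (prmU w K σ : Matrix (Fin w → K) (Fin w → K) ℂ) = prm K σ := rfl

private theorem prmU_tnsU {w : ℕ} {K : Type} [Fintype K] [DecidableEq K] (σ : Perm (Fin w))
    (A : Fin w → GL K ℂ) : prmU w K σ * tnsU w K A = tnsU w K (fun i => A (σ⁻¹ i)) * prmU w K σ := by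
  apply Units.ext
  rw [Units.val_mul, Units.val_mul, tnsU_coe, tnsU_coe, prmU_coe]
  exact prm_tns σ _

private noncomputable def locE {p w : ℕ} {K : Type} [Fintype K] [DecidableEq K]
    (T : Multiplicative (ZMod p) →* GL K ℂ) : EE p w →* GL (Fin w → K) ℂ where
  toFun e := tnsU w K fun i => T (Multiplicative.ofAdd (Multiplicative.toAdd e i))
  map_one' := by
    have h : (fun i : Fin w => T (Multiplicative.ofAdd (Multiplicative.toAdd (1 : EE p w) i))) = 1 := by
      funext i
      exact map_one T
    rw [h, map_one]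
  map_mul' e e' := by
    rw [← map_mul]
    congr 1
    funext i
    exact map_mul T _ _

private noncomputable def locW {p w : ℕ} (r : ℕ) {K : Type} [Fintype K] [DecidableEq K]
    (S : (ZMod p)ˣ →* GL K ℂ) : WW p w × Perm (Fin r) →* GL (Fin w → K) ℂ where
  toFun g := (tnsU w K fun i => S (g.1.left i)) * prmU w K g.1.right
  map_one' := by
    have h : (fun i : Fin w => S ((1 : WW p w × Perm (Fin r)).1.left i)) = 1 := by
      funext i
      exact map_one S
    have h2 : prmU w K (1 : WW p w × Perm (Fin r)).1.right = 1 := map_one _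
    rw [h, map_one, h2, one_mul]
  map_mul' g g' := by
    have h1 : (fun i : Fin w => S ((g * g').1.left i)) =
        (fun i => S (g.1.left i)) * fun i => S (g'.1.left (g.1.right⁻¹ i)) := by
      funext i
      exact map_mul S (g.1.left i) (g'.1.left (g.1.right⁻¹ i))
    have h2 : prmU w K (g * g').1.right = prmU w K g.1.right * prmU w K g'.1.right :=
      map_mul _ _ _
    have h3 := prmU_tnsU (K := K) g.1.right fun i => S (g'.1.left i)
    rw [h1, h2, map_mul]
    calc (tnsU w K fun i => S (g.1.left i)) * (tnsU w K fun i => S (g'.1.left (g.1.right⁻¹ i))) *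
          (prmU w K g.1.right * prmU w K g'.1.right)
        = (tnsU w K fun i => S (g.1.left i)) *
          ((tnsU w K fun i => S (g'.1.left (g.1.right⁻¹ i))) * prmU w K g.1.right) *
            prmU w K g'.1.right := by group
      _ = (tnsU w K fun i => S (g.1.left i)) * prmU w K g.1.right *
          ((tnsU w K fun i => S (g'.1.left i)) * prmU w K g'.1.right) := by
        rw [← h3]
        group

theorem loc_hom (p : ℕ) [Fact p.Prime] (hp : p ≠ 2) (w r : ℕ) {K : Type} [Fintype K]
    [DecidableEq K] {G : ZMod p → Matrix K K ℂ} (hG : Gam G) :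
    ∃ N : LL p w r →* GL (Fin w → K) ℂ, ∀ (g : LL p w r) (i : Fin w) (x : ZMod p),
      (N g : Matrix (Fin w → K) (Fin w → K) ℂ) * plc i (G x) =
        (((chi2 p (g.right.1.left (g.right.1.right i)) : ℤˣ) : ℤ) : ℂ) •
          (plc (g.right.1.right i) (G (Multiplicative.toAdd g.left (g.right.1.right i) +
            (g.right.1.left (g.right.1.right i) : ZMod p) * x)) *
              (N g : Matrix (Fin w → K) (Fin w → K) ℂ)) := by
  obtain ⟨T, S, hT, hS, hST⟩ := aff_lift p hp hG
  let N : LL p w r →* GL (Fin w → K) ℂ := SemidirectProduct.lift (locE T) (locW r S) (by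
    intro g
    refine MonoidHom.ext fun e => ?_
    change locE T (actE p w g.1 e) = locW r S g * locE T e * (locW r S g)⁻¹
    rw [eq_mul_inv_iff_mul_eq]
    have h3 := prmU_tnsU (K := K) g.1.right
      fun i => T (Multiplicative.ofAdd (Multiplicative.toAdd e i))
    have h4 : (tnsU w K fun i => S (g.1.left i)) *
        (tnsU w K fun i => T (Multiplicative.ofAdd (Multiplicative.toAdd e (g.1.right⁻¹ i)))) =
        locE T (actE p w g.1 e) * (tnsU w K fun i => S (g.1.left i)) := by
      change _ = (tnsU w K fun i => T (Multiplicative.ofAdd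
        ((g.1.left i : ZMod p) * Multiplicative.toAdd e (g.1.right⁻¹ i)))) * _
      rw [← map_mul, ← map_mul]
      congr 1
      funext i
      exact hST (g.1.left i) (Multiplicative.toAdd e (g.1.right⁻¹ i))
    change locE T (actE p w g.1 e) * ((tnsU w K fun i => S (g.1.left i)) * prmU w K g.1.right) =
      ((tnsU w K fun i => S (g.1.left i)) * prmU w K g.1.right) *
        (tnsU w K fun i => T (Multiplicative.ofAdd (Multiplicative.toAdd e i)))
    rw [← mul_assoc, ← h4, mul_assoc, mul_assoc, h3])
  refine ⟨N, fun g i x => ?_⟩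
  set σ := g.right.1.right with hσ
  set u := g.right.1.left with hu
  set e := Multiplicative.toAdd g.left with he
  set c : ℂ := (((chi2 p (u (σ i)) : ℤˣ) : ℤ) : ℂ) with hc
  have hN : (N g : Matrix (Fin w → K) (Fin w → K) ℂ) =
      (tns fun i => (T (Multiplicative.ofAdd (e i)) : Matrix K K ℂ)) *
        ((tns fun i => (S (u i) : Matrix K K ℂ)) * prm K σ) := rfl
  have h1 := prm_plc (K := K) σ i (G x)
  have h2 : (tns fun i => (S (u i) : Matrix K K ℂ)) * plc (σ i) (G x) =
      plc (σ i) (c • G ((u (σ i) : ZMod p) * x)) * tns fun i => (S (u i) : Matrix K K ℂ) := by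
    refine tns_plc _ (σ i) (G x) _ ?_
    rw [smul_mul_assoc]
    exact hS (u (σ i)) x
  have h3 : (tns fun i => (T (Multiplicative.ofAdd (e i)) : Matrix K K ℂ)) *
      plc (σ i) (G ((u (σ i) : ZMod p) * x)) =
      plc (σ i) (G (e (σ i) + (u (σ i) : ZMod p) * x)) *
        tns fun i => (T (Multiplicative.ofAdd (e i)) : Matrix K K ℂ) := by
    refine tns_plc _ (σ i) _ _ ?_
    have h4 := hT (e (σ i)) ((u (σ i) : ZMod p) * x)
    rw [Units.val_one, Int.cast_one, one_smul] at h4
    exact h4
  rw [hN]
  calc (tns fun i => (T (Multiplicative.ofAdd (e i)) : Matrix K K ℂ)) *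
        ((tns fun i => (S (u i) : Matrix K K ℂ)) * prm K σ) * plc i (G x)
      = (tns fun i => (T (Multiplicative.ofAdd (e i)) : Matrix K K ℂ)) *
        ((tns fun i => (S (u i) : Matrix K K ℂ)) * plc (σ i) (G x) * prm K σ) := by
        rw [Matrix.mul_assoc _ _ (plc i (G x)), Matrix.mul_assoc _ (prm K σ) (plc i (G x)), h1,
          Matrix.mul_assoc _ (plc (σ i) (G x)) (prm K σ)]
    _ = c • ((tns fun i => (T (Multiplicative.ofAdd (e i)) : Matrix K K ℂ)) *
        plc (σ i) (G ((u (σ i) : ZMod p) * x)) *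
          ((tns fun i => (S (u i) : Matrix K K ℂ)) * prm K σ)) := by
        rw [h2, plc_smul, smul_mul_assoc, smul_mul_assoc, mul_smul_comm]
        simp only [Matrix.mul_assoc]
    _ = _ := by
        rw [h3]
        simp only [Matrix.mul_assoc]

end Pool.Agent.Helper41.SST
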