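import Pool.Agent.Helper41.SST.GamEx
import Pool.Agent.Helper41.SST.LocHom

/-!
# SST-07 PDEx: the data exist

PROOF. `G` from `gam_exists m (ZMod p) (Fin (2 ^ m))` (`ZMod.card`), `N` from `loc_hom`, and an equivalence
`b : (Fin w → Fin (2 ^ m)) ≃ Fin (2 ^ (w * m))` (`Fintype.equivFinOfCardEq`, `(2 ^ m) ^ w = 2 ^ (w * m)`). Let `Ψ = Matrix.reindexAlgEquiv ℂ ℂ b`
and transport units with `Units.mapEquiv`/`Units.map`. `A i x` is the unit with value and inverse `Ψ (plc i (G x))`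
(`plc_mul`, `hG.sq`, `plc_one`). `sq`, `anti` (`plc_neg`), `comm` (`plc_comm`): `Units.ext`. `conj`: `loc_hom`, with
`Int.units_eq_one_or` for the sign (`sgm d 1 = 1`, `sgm d (-1) = -1`). `gen`: `adjoin_gen` and `Algebra.adjoin` under the algebra
isomorphism `Ψ` (`AlgHom.map_adjoin`, the image of the generating set; `Algebra.map_top`, surjectivity).
-/

set_option autoImplicit false

open Equiv Matrix

namespace Pool.Agent.Helper41.SST

open Pool.Agent.Helper81.AN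

private theorem sgm_val (d : ℕ) (s : ℤˣ) :
    ((sgm d s : GL (Fin d) ℂ) : Matrix (Fin d) (Fin d) ℂ) = (((s : ℤˣ) : ℤ) : ℂ) • 1 := by
  unfold sgm
  rcases Int.units_eq_one_or s with h | h
  · subst h
    simp
  · subst h
    rw [if_neg (by decide)]
    simp

theorem pd_exists (p : ℕ) [Fact p.Prime] (m : ℕ) (hm : 2 * m + 1 = p) (w r : ℕ) :
    ∃ (A : Fin w → ZMod p → GL (Fin (2 ^ (w * m))) ℂ) (N : LL p w r →* GL (Fin (2 ^ (w * m))) ℂ),
      PD p w r (2 ^ (w * m)) A N := by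
  obtain ⟨G, hG⟩ := gam_exists m (ZMod p) (Fin (2 ^ m)) (by rw [ZMod.card, hm]) (Fintype.card_fin _)
  have hp2 : p ≠ 2 := by omega
  obtain ⟨N, hN⟩ := loc_hom p hp2 w r hG
  have hcard : Fintype.card (Fin w → Fin (2 ^ m)) = 2 ^ (w * m) := by
    rw [Fintype.card_fun, Fintype.card_fin, Fintype.card_fin, ← pow_mul, mul_comm]
  let b : (Fin w → Fin (2 ^ m)) ≃ Fin (2 ^ (w * m)) := Fintype.equivFinOfCardEq hcard
  let Ψ : Matrix (Fin w → Fin (2 ^ m)) (Fin w → Fin (2 ^ m)) ℂ ≃ₐ[ℂ]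
      Matrix (Fin (2 ^ (w * m))) (Fin (2 ^ (w * m))) ℂ := Matrix.reindexAlgEquiv ℂ ℂ b
  have hsq : ∀ (i : Fin w) (x : ZMod p), Ψ (plc i (G x)) * Ψ (plc i (G x)) = 1 := by
    intro i x
    rw [← map_mul, plc_mul, hG.sq, plc_one, map_one]
  let A : Fin w → ZMod p → GL (Fin (2 ^ (w * m))) ℂ := fun i x =>
    ⟨Ψ (plc i (G x)), Ψ (plc i (G x)), hsq i x, hsq i x⟩
  have hA : ∀ i x, ((A i x : GL (Fin (2 ^ (w * m))) ℂ) :
      Matrix (Fin (2 ^ (w * m))) (Fin (2 ^ (w * m))) ℂ) = Ψ (plc i (G x)) := fun _ _ => rfl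
  let N' : LL p w r →* GL (Fin (2 ^ (w * m))) ℂ :=
    (Units.map (Ψ : Matrix (Fin w → Fin (2 ^ m)) (Fin w → Fin (2 ^ m)) ℂ →*
      Matrix (Fin (2 ^ (w * m))) (Fin (2 ^ (w * m))) ℂ)).comp N
  have hN' : ∀ g, ((N' g : GL (Fin (2 ^ (w * m))) ℂ) :
      Matrix (Fin (2 ^ (w * m))) (Fin (2 ^ (w * m))) ℂ) = Ψ (N g) := fun _ => rfl
  refine ⟨A, N', ⟨?_, ?_, ?_, ?_, ?_⟩⟩
  · intro i x
    apply Units.ext
    rw [Units.val_mul, hA, Units.val_one]
    exact hsq i x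
  · intro i x y hxy
    apply Units.ext
    rw [Units.val_neg, Units.val_mul, Units.val_mul, hA, hA, ← map_mul, ← map_mul, ← map_neg,
      plc_mul, plc_mul, ← plc_neg, hG.anti x y hxy]
  · intro i j x y hij
    apply Units.ext
    rw [Units.val_mul, Units.val_mul, hA, hA, ← map_mul, ← map_mul, plc_comm hij]
  · intro g i x
    apply Units.ext
    rw [Units.val_mul, Units.val_mul, Units.val_mul, hA, hA, hN', sgm_val, ← map_mul, hN g i x,
      map_smul, map_mul, smul_mul_assoc, smul_mul_assoc, one_mul]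
  · have hset : {M : Matrix (Fin (2 ^ (w * m))) (Fin (2 ^ (w * m))) ℂ | ∃ (i : Fin w) (x y : ZMod p),
        M = (A i x : Matrix (Fin (2 ^ (w * m))) (Fin (2 ^ (w * m))) ℂ) *
          (A i y : Matrix (Fin (2 ^ (w * m))) (Fin (2 ^ (w * m))) ℂ)} =
        Ψ.toAlgHom '' {M : Matrix (Fin w → Fin (2 ^ m)) (Fin w → Fin (2 ^ m)) ℂ |
          ∃ (i : Fin w) (x y : ZMod p), M = plc i (G x) * plc i (G y)} := by
      ext M
      constructor
      · rintro ⟨i, x, y, h⟩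
        refine ⟨plc i (G x) * plc i (G y), ⟨i, x, y, rfl⟩, ?_⟩
        rw [h, hA, hA]
        exact map_mul Ψ _ _
      · rintro ⟨M', ⟨i, x, y, h⟩, h'⟩
        refine ⟨i, x, y, ?_⟩
        rw [← h', h, hA, hA]
        exact map_mul Ψ _ _
    rw [hset, ← AlgHom.map_adjoin, adjoin_gen hG, Algebra.map_top]
    exact (AlgHom.range_eq_top _).2 Ψ.surjective

end Pool.Agent.Helper41.SST
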