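import Pool.Agent.Helper41.SST.TDefs

/-!
# SST-04 PermLift: commutant, and lifts of permutations

PROOFS. `gam_scalar`: `A` commutes with all `G x * G y`, so with the algebra generated by them, which is everything
(`hG.gen`; the centralizer of `A` is a subalgebra, `Algebra.adjoin_le`), so `A` is a scalar
(`Matrix.mem_range_scalar_iff_commute_single'` or similar; if `K` is empty every matrix is `0`).
`perm_lift`: `Equiv.Perm.swap_induction_on`. `π = 1`: `M = 1`. If `M` lifts `π` and `T` lifts `swap a b` then `T * M` lifts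
`swap a b * π`. Lift of `swap a b`, `a ≠ b`: `T = G a - G b`, a unit with inverse `(1 / 2) • (G a - G b)`: `T * T = 2` because
`G a * G b + G b * G a = 0`; and `T * G x = -(G (swap a b x) * T)`: for `x ≠ a, b` clear; `x = a`:
`T * G a = 1 - G b * G a`, `G b * T = G b * G a - 1`; `x = b` the same.
`lift_unique`: `M' * M⁻¹` commutes with all `G y`: `M⁻¹ * G (π x) = sign • G x * M⁻¹`.
-/

set_option autoImplicit false

open Equiv Matrix

namespace Pool.Agent.Helper41.SST

variable {ι K : Type} [Fintype ι] [DecidableEq ι] [Fintype K] [DecidableEq K]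

theorem gam_scalar {G : ι → Matrix K K ℂ} (hG : Gam G) (A : Matrix K K ℂ)
    (h : ∀ x, A * G x = G x * A) : ∃ c : ℂ, A = c • (1 : Matrix K K ℂ) := by
  have h1 : Algebra.adjoin ℂ {M : Matrix K K ℂ | ∃ x y, M = G x * G y} ≤
      Subalgebra.centralizer ℂ {A} := by
    apply Algebra.adjoin_le
    rintro M ⟨x, y, rfl⟩
    rw [SetLike.mem_coe, Subalgebra.mem_centralizer_iff]
    intro B hB
    rw [Set.mem_singleton_iff] at hB
    subst hB
    rw [← mul_assoc, h x, mul_assoc, h y, mul_assoc]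
  rw [hG.gen] at h1
  have h2 : A ∈ Set.range (Matrix.scalar K) := by
    rw [Matrix.mem_range_scalar_iff_commute_single']
    intro i j
    have h3 := h1 (Algebra.mem_top : Matrix.single i j (1 : ℂ) ∈ (⊤ : Subalgebra ℂ (Matrix K K ℂ)))
    rw [Subalgebra.mem_centralizer_iff] at h3
    exact (h3 A rfl).symm
  obtain ⟨c, hc⟩ := h2
  refine ⟨c, ?_⟩
  rw [← hc, Matrix.scalar_apply, Matrix.smul_one_eq_diagonal]

/-- `M` is a lift of the permutation `π` with sign `s` -/
def IsLift (G : ι → Matrix K K ℂ) (s : ℤˣ) (π : ι → ι) (M : GL K ℂ) : Prop :=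
  ∀ x, (M : Matrix K K ℂ) * G x =
    (((s : ℤˣ) : ℤ) : ℂ) • (G (π x) * (M : Matrix K K ℂ))

theorem IsLift.one (G : ι → Matrix K K ℂ) : IsLift G 1 id 1 := by
  intro x
  simp

theorem IsLift.mul {G : ι → Matrix K K ℂ} {s t : ℤˣ} {π ρ : ι → ι} {M N : GL K ℂ}
    (hM : IsLift G s π M) (hN : IsLift G t ρ N) : IsLift G (s * t) (π ∘ ρ) (M * N) := by
  intro x
  rw [Units.val_mul, mul_assoc, hN x, Matrix.mul_smul, ← mul_assoc, hM (ρ x), Matrix.smul_mul,
    smul_smul, mul_assoc, Function.comp_apply]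
  congr 1
  push_cast
  ring

theorem perm_lift {G : ι → Matrix K K ℂ} (hG : Gam G) (π : Perm ι) :
    ∃ M : GL K ℂ, IsLift G (Perm.sign π) π M := by
  induction π using Equiv.Perm.swap_induction_on with
  | one =>
    refine ⟨1, ?_⟩
    rw [map_one]
    exact IsLift.one G
  | swap_mul f a b hab ih =>
    obtain ⟨M, hM⟩ := ih
    have hab2 : G a * G b = -(G b * G a) := hG.anti a b hab
    have hT2 : (G a - G b) * ((1 / 2 : ℂ) • (G a - G b)) = 1 := by
      have e1 : (G a - G b) * (G a - G b) = (2 : ℂ) • (1 : Matrix K K ℂ) := by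
        have e2 : (G a - G b) * (G a - G b) = G a * G a - G a * G b - G b * G a + G b * G b := by
          noncomm_ring
        rw [e2, hG.sq, hG.sq, hab2, two_smul]
        abel
      rw [Matrix.mul_smul, e1, smul_smul]
      norm_num
    have hT3 : ((1 / 2 : ℂ) • (G a - G b)) * (G a - G b) = 1 := by
      rw [Matrix.smul_mul, ← Matrix.mul_smul]
      exact hT2
    let T : GL K ℂ := ⟨G a - G b, (1 / 2 : ℂ) • (G a - G b), hT2, hT3⟩
    have hT : IsLift G (-1) (swap a b) T := by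
      intro x
      change (G a - G b) * G x = (((-1 : ℤˣ) : ℤ) : ℂ) • (G (swap a b x) * (G a - G b))
      have e0 : (((-1 : ℤˣ) : ℤ) : ℂ) = -1 := by simp
      rw [e0, neg_one_smul]
      by_cases hxa : x = a
      · subst hxa
        rw [swap_apply_left, sub_mul, mul_sub, hG.sq, hG.sq]
        abel
      · by_cases hxb : x = b
        · subst hxb
          rw [swap_apply_right, sub_mul, mul_sub, hG.sq, hG.sq]
          abel
        · rw [swap_apply_of_ne_of_ne hxa hxb, sub_mul, mul_sub, hG.anti a x (Ne.symm hxa),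
            hG.anti b x (Ne.symm hxb)]
          abel
    refine ⟨T * M, ?_⟩
    rw [map_mul, Perm.sign_swap hab]
    exact hT.mul hM

theorem lift_unique {G : ι → Matrix K K ℂ} (hG : Gam G) (π : Perm ι) {s : ℤˣ} {M M' : GL K ℂ}
    (hM : IsLift G s π M) (hM' : IsLift G s π M') :
    ∃ c : ℂˣ, (M' : Matrix K K ℂ) = (c : ℂ) • (M : Matrix K K ℂ) := by
  have hs : (((s : ℤˣ) : ℤ) : ℂ) * (((s : ℤˣ) : ℤ) : ℂ) = 1 := by
    rcases Int.units_eq_one_or s with h | h <;> simp [h]
  have hinv : ∀ x, ((M⁻¹ : GL K ℂ) : Matrix K K ℂ) * G (π x) =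
      (((s : ℤˣ) : ℤ) : ℂ) • (G x * ((M⁻¹ : GL K ℂ) : Matrix K K ℂ)) := by
    intro x
    have e1 : ((M⁻¹ : GL K ℂ) : Matrix K K ℂ) * (M : Matrix K K ℂ) = 1 := by
      rw [← Units.val_mul, inv_mul_cancel, Units.val_one]
    have e2 : (M : Matrix K K ℂ) * ((M⁻¹ : GL K ℂ) : Matrix K K ℂ) = 1 := by
      rw [← Units.val_mul, mul_inv_cancel, Units.val_one]
    have e3 : ((M⁻¹ : GL K ℂ) : Matrix K K ℂ) * ((M : Matrix K K ℂ) * G x) *
        ((M⁻¹ : GL K ℂ) : Matrix K K ℂ) = G x * ((M⁻¹ : GL K ℂ) : Matrix K K ℂ) := by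
      rw [← mul_assoc, e1, one_mul]
    rw [hM x, Matrix.mul_smul, Matrix.smul_mul, ← mul_assoc, mul_assoc _ (M : Matrix K K ℂ), e2,
      mul_one] at e3
    rw [← e3, smul_smul, hs, one_smul]
  have hcomm : ∀ y, ((M' : Matrix K K ℂ) * ((M⁻¹ : GL K ℂ) : Matrix K K ℂ)) * G y =
      G y * ((M' : Matrix K K ℂ) * ((M⁻¹ : GL K ℂ) : Matrix K K ℂ)) := by
    intro y
    obtain ⟨x, rfl⟩ := π.surjective y
    rw [mul_assoc, hinv x, Matrix.mul_smul, ← mul_assoc, hM' x, Matrix.smul_mul, smul_smul, hs,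
      one_smul, mul_assoc]
  obtain ⟨c, hc⟩ := gam_scalar hG _ hcomm
  have hM1 : (M' : Matrix K K ℂ) = c • (M : Matrix K K ℂ) := by
    have e1 : ((M⁻¹ : GL K ℂ) : Matrix K K ℂ) * (M : Matrix K K ℂ) = 1 := by
      rw [← Units.val_mul, inv_mul_cancel, Units.val_one]
    calc (M' : Matrix K K ℂ) = (M' : Matrix K K ℂ) * (((M⁻¹ : GL K ℂ) : Matrix K K ℂ) *
          (M : Matrix K K ℂ)) := by rw [e1, mul_one]
      _ = (c • (1 : Matrix K K ℂ)) * (M : Matrix K K ℂ) := by rw [← mul_assoc, hc]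
      _ = c • (M : Matrix K K ℂ) := by rw [Matrix.smul_mul, one_mul]
  rcases isEmpty_or_nonempty K with hK | hK
  · refine ⟨1, ?_⟩
    apply Matrix.ext
    intro i
    exact (hK.false i).elim
  · have hc0 : c ≠ 0 := by
      intro h0
      rw [h0, zero_smul] at hM1
      exact (Units.ne_zero M') hM1
    exact ⟨Units.mk0 c hc0, hM1⟩

end Pool.Agent.Helper41.SST
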