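import Pool.Agent.Helper41.SST.PhiCl

/-!
# SST-09 Phi: the homomorphism on the big group

PROOF of `phi_compat`: it suffices to check on `Cl.z` and on the generators `Cl.a q` (both sides are homomorphisms in `c`:
`Cl.hom_ext`). The action of `g : LL p w r` on `Cl (Pt p w r)` is `Cl.act (permH _ (permL p w r g))`, `Cl.a q ↦ Cl.a (permL p w r g q)` (the
signs of `permH` are `1`). `z`: `(N g, g) (1, z) = (1, z) (N g, g)`. `q = inr j`: `permL p w r g (inr j) = inr (g.right.2 j)`,
and in `Y = BG (signL p w r)` `inr g * inl (Cl.a (inr j)) = inl (Cl.actHom (signL g) (Cl.a (inr j))) * inr g` with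
`actHom (signL g) (a (inr j)) = Cl.u 1 * a (inr (g.right.2 j))` (`Cl.actHom_a`; `SemidirectProduct.inl_aut`). `q = inl (i, x)`: with
`σ = g.right.1.right`, `s = chi2 p (g.right.1.left (σ i))`: `permL p w r g (inl (i, x)) = inl (σ i, e (σ i) + u (σ i) * x)`,
`N g * A i x = sgm d s * A (σ i) (..) * N g` (`h.conj`) and `inr g * inl (a (inl i)) = inl (Cl.u s * a (inl (σ i))) * inr g`; the two signs
cancel: `qm (sgm d s * M) (inl (Cl.u s) * y) = qm M y` (`qm_sgm`; `Int.units_eq_one_or`, `qm_neg`, `Cl.u (-1) = Cl.z`).
-/

set_option autoImplicit false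

open Equiv Matrix

namespace Pool.Agent.Helper41.SST

open Pool.Agent.Helper81.AN

variable {p w r d : ℕ} [Fact p.Prime] {A : Fin w → ZMod p → GL (Fin d) ℂ}
  {N : LL p w r →* GL (Fin d) ℂ}

/-- the big group of the local group with the Clifford group of all points -/
abbrev XX (p w r : ℕ) : Type := BG ((permH (Pt p w r)).comp (permL p w r))

theorem qm_sgm (s : ℤˣ) (M : GL (Fin d) ℂ) (y : BG (signL p w r)) :
    qm p w r d (sgm d s * M) (SemidirectProduct.inl (Cl.u s) * y) = qm p w r d M y := by
  rcases Int.units_eq_one_or s with rfl | rfl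
  · rw [sgm, if_pos rfl, one_mul, map_one, map_one, one_mul]
  · have h1 : (Cl.u (-1) : Cl (Fin w ⊕ Fin r)) = Cl.z := by
      change (if (-1 : ℤˣ) = 1 then 1 else Cl.z) = Cl.z
      rw [if_neg (by decide)]
    rw [sgm, if_neg (by decide), neg_one_mul, h1]
    exact qm_neg M y

private theorem phi_swap (g : LL p w r) (c : Cl (Fin w ⊕ Fin r)) :
    (SemidirectProduct.inr g * SemidirectProduct.inl c : BG (signL p w r)) =
      SemidirectProduct.inl (Cl.actHom (signL p w r g) c) * SemidirectProduct.inr g := by
  have h1 : (SemidirectProduct.inl (Cl.actHom (signL p w r g) c) : BG (signL p w r)) =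
      SemidirectProduct.inr g * SemidirectProduct.inl c * SemidirectProduct.inr g⁻¹ :=
    SemidirectProduct.inl_aut g c
  rw [h1, map_inv, inv_mul_cancel_right]

omit [Fact p.Prime] in
private theorem phi_perm (g : LL p w r) (q : Pt p w r) :
    Cl.act ((permH (Pt p w r)).comp (permL p w r) g) (Cl.a q) = Cl.a (permL p w r g q) := by
  change Cl.actHom (((permH (Pt p w r)).comp (permL p w r)) g) (Cl.a q) = _
  rw [Cl.actHom_a]
  change Cl.u 1 * Cl.a (permL p w r g q) = _
  rw [map_one, one_mul]

theorem phi_compat (h : PD p w r d A N) (g : LL p w r) (c : Cl (Pt p w r)) :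
    phiCl h (Cl.act ((permH (Pt p w r)).comp (permL p w r) g) c) =
      qm p w r d (N g) (SemidirectProduct.inr g) * phiCl h c *
        (qm p w r d (N g) (SemidirectProduct.inr g))⁻¹ := by
  have hmain : (phiCl h).comp
      (Cl.act ((permH (Pt p w r)).comp (permL p w r) g)).toMonoidHom =
      (MulAut.conj (qm p w r d (N g) (SemidirectProduct.inr g))).toMonoidHom.comp (phiCl h) := by
    apply Cl.hom_ext
    · change phiCl h (Cl.actHom (((permH (Pt p w r)).comp (permL p w r)) g) Cl.z) =
        qm p w r d (N g) (SemidirectProduct.inr g) * phiCl h Cl.z *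
          (qm p w r d (N g) (SemidirectProduct.inr g))⁻¹
      rw [Cl.actHom_z, phiCl_z, eq_mul_inv_iff_mul_eq, qm_mul, qm_mul, one_mul, mul_one,
        (BG.cinv _).comm]
    · intro q
      change phiCl h (Cl.act ((permH (Pt p w r)).comp (permL p w r) g) (Cl.a q)) =
        qm p w r d (N g) (SemidirectProduct.inr g) * phiCl h (Cl.a q) *
          (qm p w r d (N g) (SemidirectProduct.inr g))⁻¹
      rw [phi_perm, phiCl_a, phiCl_a, eq_mul_inv_iff_mul_eq]
      rcases q with ⟨i, x⟩ | j
      · have h1 : permL p w r g (Sum.inl (i, x)) = Sum.inl (g.right.1.right i,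
            Multiplicative.toAdd g.left (g.right.1.right i) +
              (g.right.1.left (g.right.1.right i) : ZMod p) * x) := rfl
        rw [h1]
        change qm p w r d _ (SemidirectProduct.inl (Cl.a (Sum.inl (g.right.1.right i)))) *
          qm p w r d (N g) (SemidirectProduct.inr g) =
          qm p w r d (N g) (SemidirectProduct.inr g) *
            qm p w r d (A i x) (SemidirectProduct.inl (Cl.a (Sum.inl i)))
        rw [qm_mul, qm_mul, phi_swap, h.conj, Cl.actHom_a]
        have h2 : (signL p w r g).right (Sum.inl i) = Sum.inl (g.right.1.right i) := rfl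
        rw [h2]
        have h3 : (signL p w r g).left (Sum.inl (g.right.1.right i)) =
          chi2 p (g.right.1.left (g.right.1.right i)) := rfl
        rw [h3, map_mul, mul_assoc (sgm d _), mul_assoc (SemidirectProduct.inl (Cl.u _)), qm_sgm]
      · have h1 : permL p w r g (Sum.inr j) = Sum.inr (g.right.2 j) := rfl
        rw [h1]
        change qm p w r d 1 (SemidirectProduct.inl (Cl.a (Sum.inr (g.right.2 j)))) *
          qm p w r d (N g) (SemidirectProduct.inr g) =
          qm p w r d (N g) (SemidirectProduct.inr g) *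
            qm p w r d 1 (SemidirectProduct.inl (Cl.a (Sum.inr j)))
        rw [qm_mul, qm_mul, phi_swap, Cl.actHom_a, one_mul, mul_one]
        have h2 : (signL p w r g).right (Sum.inr j) = Sum.inr (g.right.2 j) := rfl
        rw [h2]
        have h3 : (signL p w r g).left (Sum.inr (g.right.2 j)) = 1 := rfl
        rw [h3, map_one, one_mul]
  exact DFunLike.congr_fun hmain c

/-- the homomorphism on the local group -/
noncomputable def phiL (_h : PD p w r d A N) : LL p w r →* QT p w r d :=
  (qmk d (BG.z (signL p w r))).comp (MonoidHom.prod N SemidirectProduct.inr)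

/-- the homomorphism `Φ` -/
noncomputable def phi (h : PD p w r d A N) : XX p w r →* QT p w r d :=
  SemidirectProduct.lift (phiCl h) (phiL h) (by
    intro g
    refine MonoidHom.ext fun c => ?_
    exact phi_compat h g c)

theorem phi_inl (h : PD p w r d A N) (c : Cl (Pt p w r)) :
    phi h (SemidirectProduct.inl c) = phiCl h c := SemidirectProduct.lift_inl _ _ _ _

theorem phi_inr (h : PD p w r d A N) (g : LL p w r) :
    phi h (SemidirectProduct.inr g) = qm p w r d (N g) (SemidirectProduct.inr g) :=
  SemidirectProduct.lift_inr _ _ _ _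

end Pool.Agent.Helper41.SST
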