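import Pool.Agent.Helper41.SST.TDefs

/-!
# SST-08 PhiCl: the homomorphism on the Clifford group

PROOF of the relations (`qmk` is a homomorphism, so everything is computed in `GL × Y`; `Y = BG (signL p w r)`, `z = BG.z _`,
`BG.cinv`): the images `img A q` are involutions (`h.sq`, `Cl.a_sq`, `map_mul` of `SemidirectProduct.inl`), `qmk (1, z)` is a
central involution. For `q ≠ q'` the commutator is `qmk (1, z)`:
* `(i, x)`, `(i, y)`, `x ≠ y`: `A i x * A i y = -(A i y * A i x)` gives the commutator `-1` in `GL`, and `1` in `Y` (the same generator);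
  `qmk (-1, 1) = qmk (1, z)` by `qmk_eq`.
* `(i, x)`, `(j, y)`, `i ≠ j`: the commutator in `GL` is `1` (`h.comm`), in `Y` it is `inl ⁅a i, a j⁆ = z` (`Cl.a_a`).
* `(i, x)`, `j` and `j`, `j'`: the same with the matrix `1`.
(`commutatorElement_def`; it may be convenient to show first that `⁅(P, s), (Q, t)⁆ = (⁅P, Q⁆, ⁅s, t⁆)`.)
-/

set_option autoImplicit false

open Equiv Matrix
open scoped commutatorElement

namespace Pool.Agent.Helper41.SST

open Pool.Agent.Helper81.AN

variable {p w r d : ℕ} [Fact p.Prime] {A : Fin w → ZMod p → GL (Fin d) ℂ}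
  {N : LL p w r →* GL (Fin d) ℂ}

/-- the group of the target -/
abbrev QT (p w r d : ℕ) [Fact p.Prime] : Type := QQ d (BG.z (signL p w r))

/-- the class of a pair -/
noncomputable def qm (p w r d : ℕ) [Fact p.Prime] (M : GL (Fin d) ℂ) (y : BG (signL p w r)) :
    QT p w r d := qmk d (BG.z (signL p w r)) (M, y)

theorem qm_mul (M M' : GL (Fin d) ℂ) (y y' : BG (signL p w r)) :
    qm p w r d M y * qm p w r d M' y' = qm p w r d (M * M') (y * y') := (map_mul _ _ _).symm

theorem qm_one : qm p w r d 1 1 = 1 := map_one _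

theorem qm_neg (M : GL (Fin d) ℂ) (y : BG (signL p w r)) :
    qm p w r d (-M) (BG.z (signL p w r) * y) = qm p w r d M y :=
  (qmk_eq d _ (BG.cinv _) _ _ _ _).2 (Or.inr ⟨rfl, rfl⟩)

/-- the image of the generator `q` -/
noncomputable def img (r : ℕ) (A : Fin w → ZMod p → GL (Fin d) ℂ) (q : Pt p w r) : QT p w r d :=
  q.elim (fun a => qm p w r d (A a.1 a.2) (SemidirectProduct.inl (Cl.a (Sum.inl a.1))))
    (fun j => qm p w r d 1 (SemidirectProduct.inl (Cl.a (Sum.inr j))))

private theorem comm_iff {X : Type} [Group X] (a b c : X) (h : a * b = c * (b * a)) :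
    ⁅a, b⁆ = c := by
  rw [commutatorElement_def, mul_inv_eq_iff_eq_mul, mul_inv_eq_iff_eq_mul, h, mul_assoc]

private theorem aa_one (q : Fin w ⊕ Fin r) :
    (SemidirectProduct.inl (Cl.a q) : BG (signL p w r)) * SemidirectProduct.inl (Cl.a q) = 1 := by
  rw [← map_mul, Cl.aa, map_one]

private theorem aa_anti {q q' : Fin w ⊕ Fin r} (h : q ≠ q') :
    (SemidirectProduct.inl (Cl.a q) : BG (signL p w r)) * SemidirectProduct.inl (Cl.a q') =
      BG.z _ * (SemidirectProduct.inl (Cl.a q') * SemidirectProduct.inl (Cl.a q)) := by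
  rw [← map_mul, Cl.a_mul_a h, map_mul, map_mul]
  rfl

private theorem qm_neg' (M : GL (Fin d) ℂ) :
    qm p w r d (-M) 1 = qm p w r d M (BG.z (signL p w r)) := by
  rw [← qm_neg M (BG.z (signL p w r)), (BG.cinv _).sq]

theorem z_sq : qm p w r d 1 (BG.z _) ^ 2 = 1 := by
  rw [pow_two, qm_mul, (BG.cinv _).sq, mul_one, qm_one]

theorem img_sq (h : PD p w r d A N) (q : Pt p w r) : img r A q ^ 2 = 1 := by
  rw [pow_two]
  rcases q with ⟨i, x⟩ | j
  · change qm p w r d (A i x) _ * qm p w r d (A i x) _ = 1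
    rw [qm_mul, aa_one, h.sq, qm_one]
  · change qm p w r d 1 _ * qm p w r d 1 _ = 1
    rw [qm_mul, aa_one, mul_one, qm_one]

theorem z_img (h : PD p w r d A N) (q : Pt p w r) : ⁅qm p w r d 1 (BG.z _), img r A q⁆ = 1 := by
  apply comm_iff
  rw [one_mul]
  rcases q with ⟨i, x⟩ | j
  · change qm p w r d 1 _ * qm p w r d (A i x) _ = qm p w r d (A i x) _ * qm p w r d 1 _
    rw [qm_mul, qm_mul, (BG.cinv _).comm, one_mul, mul_one]
  · change qm p w r d 1 _ * qm p w r d 1 _ = qm p w r d 1 _ * qm p w r d 1 _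
    rw [qm_mul, qm_mul, (BG.cinv _).comm]

theorem img_img (h : PD p w r d A N) (q q' : Pt p w r) (hq : q ≠ q') :
    ⁅img r A q, img r A q'⁆ = qm p w r d 1 (BG.z _) := by
  apply comm_iff
  rcases q with ⟨i, x⟩ | j
  · rcases q' with ⟨i', x'⟩ | j'
    · change qm p w r d (A i x) _ * qm p w r d (A i' x') _ = qm p w r d 1 _ *
        (qm p w r d (A i' x') _ * qm p w r d (A i x) _)
      rw [qm_mul, qm_mul, qm_mul, one_mul]
      by_cases hi : i = i'
      · subst hi
        have hx : x ≠ x' := by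
          rintro rfl
          exact hq rfl
        rw [h.anti i x x' hx, aa_one, mul_one, qm_neg']
      · rw [h.comm i i' x x' hi, aa_anti (fun he => hi (Sum.inl.inj he))]
    · change qm p w r d (A i x) _ * qm p w r d 1 _ = qm p w r d 1 _ *
        (qm p w r d 1 _ * qm p w r d (A i x) _)
      rw [qm_mul, qm_mul, qm_mul, one_mul, one_mul, mul_one, aa_anti Sum.inl_ne_inr]
  · rcases q' with ⟨i', x'⟩ | j'
    · change qm p w r d 1 _ * qm p w r d (A i' x') _ = qm p w r d 1 _ *
        (qm p w r d (A i' x') _ * qm p w r d 1 _)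
      rw [qm_mul, qm_mul, qm_mul, one_mul, one_mul, mul_one, aa_anti Sum.inr_ne_inl]
    · change qm p w r d 1 _ * qm p w r d 1 _ = qm p w r d 1 _ *
        (qm p w r d 1 _ * qm p w r d 1 _)
      rw [qm_mul, qm_mul, qm_mul, one_mul, one_mul,
        aa_anti (fun he => hq (congrArg _ (Sum.inr.inj he)))]

/-- the homomorphism on the Clifford group -/
noncomputable def phiCl (h : PD p w r d A N) : Cl (Pt p w r) →* QT p w r d :=
  Cl.lift (qm p w r d 1 (BG.z _)) (img r A) z_sq (img_sq h) (z_img h) (img_img h)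

theorem phiCl_z (h : PD p w r d A N) : phiCl h Cl.z = qm p w r d 1 (BG.z _) :=
  Cl.lift_z _ _ _ _ _ _

theorem phiCl_a (h : PD p w r d A N) (q : Pt p w r) : phiCl h (Cl.a q) = img r A q :=
  Cl.lift_a _ _ _ _ _ _ _

end Pool.Agent.Helper41.SST
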