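import Pool.Agent.Helper41.SST.Defs
import Pool.Agent.Helper81.AN.Ten
import Pool.Agent.Helper81.AN.ClCard

/-!
# S-step of LOC2 (project ALT/AN, MP_5ecade_al): definitions for the tensor construction

* `tns A`: the tensor product of the matrices `A i`, `i : ι`, acting on functions on `ι → K`.
* `prm σ`: the permutation of the tensor factors, `e_f ↦ e_(f ∘ σ⁻¹)`.
* `plc i A`: the matrix `A` at the place `i` and `1` at all other places.
* `Gam G`: the matrices `G x` are anticommuting involutions, and the products `G x * G y` generate
  the algebra of all matrices.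
* `sgm s`: the sign `s` as an element of `GL`.
* `PD p w r d A N`: the data needed for the homomorphism `Φ` of the S-step.
-/

set_option autoImplicit false

open Equiv Matrix

namespace Pool.Agent.Helper41.SST

open Pool.Agent.Helper81.AN

section

variable {ι K : Type} [Fintype ι] [DecidableEq ι] [Fintype K] [DecidableEq K]

/-- the tensor product of the matrices `A i` -/
def tns (A : ι → Matrix K K ℂ) : Matrix (ι → K) (ι → K) ℂ := fun f g => ∏ i, A i (f i) (g i)

/-- the permutation of the tensor factors -/
def prm (K : Type) [DecidableEq K] (σ : Perm ι) : Matrix (ι → K) (ι → K) ℂ :=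
  fun f g => if ∀ i, f (σ i) = g i then 1 else 0

/-- the matrix `A` at the place `i` -/
def plc (i : ι) (A : Matrix K K ℂ) : Matrix (ι → K) (ι → K) ℂ :=
  tns (Function.update (fun _ => (1 : Matrix K K ℂ)) i A)

/-- anticommuting involutions whose even products generate the algebra of all matrices -/
structure Gam (G : ι → Matrix K K ℂ) : Prop where
  sq : ∀ x, G x * G x = 1
  anti : ∀ x y, x ≠ y → G x * G y = -(G y * G x)
  gen : Algebra.adjoin ℂ {M : Matrix K K ℂ | ∃ x y, M = G x * G y} = ⊤

end

/-- a sign as an element of `GL` -/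
def sgm (d : ℕ) (s : ℤˣ) : GL (Fin d) ℂ := if s = 1 then 1 else -1

/-- the data for the homomorphism `Φ`: for every block `i` involutions `A i x`, and a homomorphism
`N` of the local group which permutes them with signs -/
structure PD (p w r d : ℕ) [Fact p.Prime] (A : Fin w → ZMod p → GL (Fin d) ℂ)
    (N : LL p w r →* GL (Fin d) ℂ) : Prop where
  sq : ∀ i x, A i x * A i x = 1
  anti : ∀ i x y, x ≠ y → A i x * A i y = -(A i y * A i x)
  comm : ∀ i j x y, i ≠ j → A i x * A j y = A j y * A i x
  conj : ∀ (g : LL p w r) (i : Fin w) (x : ZMod p), N g * A i x =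
    sgm d (chi2 p (g.right.1.left (g.right.1.right i))) * A (g.right.1.right i)
      (Multiplicative.toAdd g.left (g.right.1.right i) +
        (g.right.1.left (g.right.1.right i) : ZMod p) * x) * N g
  gen : Algebra.adjoin ℂ {M : Matrix (Fin d) (Fin d) ℂ | ∃ (i : Fin w) (x y : ZMod p),
    M = (A i x : Matrix (Fin d) (Fin d) ℂ) * (A i y : Matrix (Fin d) (Fin d) ℂ)} = ⊤

end Pool.Agent.Helper41.SST
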