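import Pool.Agent.Helper41.SST.TDefs

/-!
# SST-01 Tns: tensor products of matrices and permutations of the factors

PROOFS (only finite sums; definitions in `TDefs.lean`: `tns A f g = ∏ i, A i (f i) (g i)`, `prm K σ f g = 1` if
`f (σ i) = g i` for all `i`, else `0`).
* `tns_mul`: `(tns A * tns B) f h = ∑ g, ∏ i, A i (f i) (g i) * B i (g i) (h i) = ∏ i, ∑ k, A i (f i) k * B i k (h i)`
  (`Finset.prod_univ_sum` and `Fintype.piFinset_univ`, or `Finset.prod_sum`/`Fintype.sum_prod..`, `Finset.prod_mul_distrib`).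
* `tns_one`: `∏ i, (if f i = g i then 1 else 0) = if f = g then 1 else 0` (`Matrix.one_apply`, `Finset.prod_ite_zero`).
* `prm_one`, `prm_mul`: `prm σ f g = if g = f ∘ σ then 1 else 0`; the sum over `g` has one nonzero term `g = f ∘ σ`.
* `prm_tns`: `(prm σ * tns A) f g = tns A (f ∘ σ) g = ∏ i, A i (f (σ i)) (g i)`; `(tns (A ∘ σ⁻¹) * prm σ) f g` has the one
  nonzero term `h` with `h (σ i) = g i`, that is `∏ j, A (σ⁻¹ j) (f j) (g (σ⁻¹ j))`; reindex `j = σ i` (`Equiv.prod_comp`).
* `tns_smul`: `tns` of `c • A` at the place `i`: one factor `c`.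
* `tns_plc`: both sides are `tns` of a function (`tns_mul`); at `i` use `h`, elsewhere `B j * 1 = 1 * B j`.
* `plc_mul`, `plc_comm`, `plc_one`, `plc_neg`, `plc_smul`: `tns_mul`, `tns_one`, `tns_smul` and `Function.update`.
* `prm_plc`: `prm_tns` with `Function.update (fun _ => 1) i A ∘ σ⁻¹ = Function.update (fun _ => 1) (σ i) A`.
-/

set_option autoImplicit false

open Equiv Matrix

namespace Pool.Agent.Helper41.SST

variable {ι K : Type} [Fintype ι] [DecidableEq ι] [Fintype K] [DecidableEq K]

theorem tns_mul (A B : ι → Matrix K K ℂ) : tns A * tns B = tns fun i => A i * B i := by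
  ext f h
  simp only [tns, Matrix.mul_apply, ← Finset.prod_mul_distrib]
  rw [Finset.prod_univ_sum, Fintype.piFinset_univ]

theorem tns_one : tns (fun _ : ι => (1 : Matrix K K ℂ)) = 1 := by
  ext f g
  by_cases h : f = g
  · subst h
    simp [tns]
  · rw [Matrix.one_apply_ne h]
    obtain ⟨i, hi⟩ := Function.ne_iff.1 h
    exact Finset.prod_eq_zero (Finset.mem_univ i) (Matrix.one_apply_ne hi)

private theorem prm_left (σ : Perm ι) (M : Matrix (ι → K) (ι → K) ℂ) (f h : ι → K) :
    (prm K σ * M) f h = M (f ∘ σ) h := by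
  rw [Matrix.mul_apply, Finset.sum_eq_single (f ∘ σ)]
  · simp [prm]
  · intro g _ hg
    have : ¬ ∀ i, f (σ i) = g i := fun hh => hg (funext fun i => (hh i).symm)
    simp [prm, this]
  · intro hn
    exact absurd (Finset.mem_univ _) hn

private theorem prm_right (σ : Perm ι) (M : Matrix (ι → K) (ι → K) ℂ) (f h : ι → K) :
    (M * prm K σ) f h = M f (h ∘ ⇑σ⁻¹) := by
  rw [Matrix.mul_apply, Finset.sum_eq_single (h ∘ ⇑σ⁻¹)]
  · simp [prm]
  · intro g _ hg
    have : ¬ ∀ i, g (σ i) = h i := by
      intro hh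
      apply hg
      funext i
      have := hh (σ⁻¹ i)
      simpa using this
    simp [prm, this]
  · intro hn
    exact absurd (Finset.mem_univ _) hn

theorem prm_one : prm K (1 : Perm ι) = 1 := by
  ext f g
  have h := prm_left (1 : Perm ι) (1 : Matrix (ι → K) (ι → K) ℂ) f g
  rw [mul_one] at h
  rw [h]
  rfl

theorem prm_mul (σ τ : Perm ι) : prm K σ * prm K τ = prm K (σ * τ) := by
  ext f h
  rw [prm_left]
  rfl

theorem prm_tns (σ : Perm ι) (A : ι → Matrix K K ℂ) :
    prm K σ * tns A = (tns fun i => A (σ⁻¹ i)) * prm K σ := by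
  ext f h
  rw [prm_left, prm_right]
  simp only [tns, Function.comp_apply]
  rw [← Equiv.prod_comp σ (fun j => A (σ⁻¹ j) (f j) (h (σ⁻¹ j)))]
  simp

theorem plc_mul (i : ι) (A B : Matrix K K ℂ) : plc i A * plc i B = plc i (A * B) := by
  rw [plc, plc, plc, tns_mul]
  congr 1
  funext j
  by_cases h : j = i
  · subst h
    simp
  · simp [Function.update_of_ne h]

theorem plc_one (i : ι) : plc i (1 : Matrix K K ℂ) = 1 := by
  rw [plc, Function.update_eq_self_iff.2 rfl, tns_one]

private theorem plc_apply (i : ι) (A : Matrix K K ℂ) (f g : ι → K) :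
    plc i A f g = A (f i) (g i) * ∏ j ∈ Finset.univ.erase i, (1 : Matrix K K ℂ) (f j) (g j) := by
  rw [plc, tns, ← Finset.mul_prod_erase Finset.univ _ (Finset.mem_univ i),
    Function.update_self]
  congr 1
  refine Finset.prod_congr rfl (fun j hj => ?_)
  rw [Function.update_of_ne (Finset.ne_of_mem_erase hj)]

theorem plc_smul (i : ι) (c : ℂ) (A : Matrix K K ℂ) : plc i (c • A) = c • plc i A := by
  ext f g
  rw [Matrix.smul_apply, plc_apply, plc_apply, Matrix.smul_apply, smul_eq_mul, smul_eq_mul,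
    mul_assoc]

theorem plc_neg (i : ι) (A : Matrix K K ℂ) : plc i (-A) = -plc i A := by
  ext f g
  rw [Matrix.neg_apply, plc_apply, plc_apply, Matrix.neg_apply, neg_mul]

theorem plc_add (i : ι) (A B : Matrix K K ℂ) : plc i (A + B) = plc i A + plc i B := by
  ext f g
  rw [Matrix.add_apply, plc_apply, plc_apply, plc_apply, Matrix.add_apply, add_mul]

theorem plc_comm {i j : ι} (hij : i ≠ j) (A B : Matrix K K ℂ) :
    plc i A * plc j B = plc j B * plc i A := by
  rw [plc, plc, tns_mul, tns_mul]
  congr 1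
  funext k
  by_cases h : k = i
  · subst h
    rw [Function.update_of_ne hij, one_mul, mul_one]
  · rw [Function.update_of_ne h, one_mul, mul_one]

theorem tns_plc (B : ι → Matrix K K ℂ) (i : ι) (A A' : Matrix K K ℂ) (h : B i * A = A' * B i) :
    tns B * plc i A = plc i A' * tns B := by
  rw [plc, plc, tns_mul, tns_mul]
  congr 1
  funext k
  by_cases hk : k = i
  · subst hk
    rw [Function.update_self, Function.update_self, h]
  · rw [Function.update_of_ne hk, Function.update_of_ne hk, one_mul, mul_one]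

theorem prm_plc (σ : Perm ι) (i : ι) (A : Matrix K K ℂ) :
    prm K σ * plc i A = plc (σ i) A * prm K σ := by
  rw [plc, prm_tns, plc]
  congr 2
  funext k
  by_cases hk : k = σ i
  · subst hk
    simp
  · have h2 : σ⁻¹ k ≠ i := by
      intro h3
      apply hk
      rw [← h3]
      simp
    rw [Function.update_of_ne hk, Function.update_of_ne h2]

end Pool.Agent.Helper41.SST
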