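import Pool.Agent.Helper41.SST.Defs

/-!
# SST-13 Zol: `chi2` is the quadratic character (Zolotarev)

PROOFS. `chi2_gen`: let `c` be a generator of `(ZMod p)ˣ`, `p ≠ 2`. The permutation `x ↦ c x` of `ZMod p` fixes `0` and permutes the
`p - 1` other elements in one cycle (`Equiv.Perm.IsCycle`: for `x, y ≠ 0` there is `k` with `c ^ k * x = y`), with support of `p - 1` elements, so
its sign is `-(-1) ^ (p - 1) = -1` (`Equiv.Perm.IsCycle.sign`). `chi2_sq`: `chi2 p (u * u) = 1` (`map_mul`, `Int.units_mul_self`).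
`chi2_eq_one`: if `chi2 p u = 1` write `u = c ^ k`: `(-1) ^ k = 1`, so `k` is even and `u` is a square.
`chi2_quad`: both sides are `1` on squares and `-1` on non-squares (`quadraticChar_sq_one`, `quadraticChar_eq_neg_one_iff_not_one`,
`quadraticChar_one_iff_isSquare`, `ringChar_zmod_n`), with `chi2_eq_one`.
-/

set_option autoImplicit false

open Equiv

namespace Pool.Agent.Helper41.SST

open Pool.Agent.Helper81.AN

theorem chi2_gen (p : ℕ) [Fact p.Prime] (hp : p ≠ 2) (c : (ZMod p)ˣ)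
    (hc : ∀ u : (ZMod p)ˣ, u ∈ Subgroup.zpowers c) : chi2 p c = -1 := by
  have hpp : p.Prime := Fact.out
  set σ : Perm (ZMod p) := MulAction.toPermHom (ZMod p)ˣ (ZMod p) c with hσ
  have hval : ∀ x, σ x = (c : ZMod p) * x := fun x => rfl
  have hpow : ∀ (k : ℤ) (x : ZMod p), (σ ^ k) x = ((c ^ k : (ZMod p)ˣ) : ZMod p) * x := by
    intro k x
    have h : σ ^ k = MulAction.toPermHom (ZMod p)ˣ (ZMod p) (c ^ k) := by rw [map_zpow]
    rw [h]
    rfl
  -- `c ≠ 1`
  have hc1 : c ≠ 1 := by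
    rintro rfl
    have h1 := hc (-1)
    rw [Subgroup.zpowers_one_eq_bot, Subgroup.mem_bot] at h1
    have h2 : ((-1 : (ZMod p)ˣ) : ZMod p) = ((1 : (ZMod p)ˣ) : ZMod p) := by rw [h1]
    rw [Units.val_neg, Units.val_one] at h2
    have h3 : ((2 : ℕ) : ZMod p) = 0 := by
      push_cast
      linear_combination -h2
    rw [ZMod.natCast_eq_zero_iff] at h3
    have h4 := Nat.le_of_dvd (by norm_num) h3
    have h5 := hpp.two_le
    omega
  have hmove : ∀ x : ZMod p, σ x ≠ x ↔ x ≠ 0 := by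
    intro x
    constructor
    · rintro h rfl
      exact h (by rw [hval, mul_zero])
    · intro hx h
      rw [hval] at h
      have h1 : (c : ZMod p) = 1 := mul_right_cancel₀ hx (by rw [h, one_mul])
      exact hc1 (Units.ext h1)
  have hcyc : σ.IsCycle := by
    refine ⟨1, (hmove 1).2 one_ne_zero, fun y hy => ?_⟩
    have hy0 : y ≠ 0 := (hmove y).1 hy
    obtain ⟨k, hk⟩ := Subgroup.mem_zpowers_iff.1 (hc (Units.mk0 y hy0))
    refine ⟨k, ?_⟩
    rw [hpow, hk, Units.val_mk0, mul_one]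
  have hsupp : σ.support.card = p - 1 := by
    have h1 : σ.support = Finset.univ.erase 0 := by
      ext x
      rw [Equiv.Perm.mem_support, hmove, Finset.mem_erase]
      simp
    rw [h1, Finset.card_erase_of_mem (Finset.mem_univ _), Finset.card_univ, ZMod.card]
  change Perm.sign σ = -1
  rw [hcyc.sign, hsupp]
  have hodd : Even (p - 1) := by
    rcases hpp.eq_two_or_odd' with h | h
    · exact absurd h hp
    · exact h.tsub_odd odd_one
  rw [hodd.neg_one_pow]

theorem chi2_sq (p : ℕ) [Fact p.Prime] (u : (ZMod p)ˣ) : chi2 p (u * u) = 1 := by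
  rw [map_mul, Int.units_mul_self]

theorem chi2_eq_one (p : ℕ) [Fact p.Prime] (hp : p ≠ 2) (u : (ZMod p)ˣ) (hu : chi2 p u = 1) :
    ∃ v : (ZMod p)ˣ, u = v * v := by
  obtain ⟨c, hc⟩ := IsCyclic.exists_generator (α := (ZMod p)ˣ)
  obtain ⟨k, rfl⟩ := Subgroup.mem_zpowers_iff.1 (hc u)
  rw [map_zpow, chi2_gen p hp c hc] at hu
  have hk : Even k := by
    by_contra h
    rw [Int.not_even_iff_odd] at h
    rw [h.neg_one_zpow] at hu
    exact absurd hu (by decide)
  obtain ⟨j, rfl⟩ := hk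
  exact ⟨c ^ j, by rw [zpow_add]⟩

theorem chi2_quad (p : ℕ) [Fact p.Prime] (hp : p ≠ 2) (u : (ZMod p)ˣ) :
    ((chi2 p u : ℤˣ) : ℤ) = quadraticChar (ZMod p) (u : ZMod p) := by
  have hF : ringChar (ZMod p) ≠ 2 := by rwa [ZMod.ringChar_zmod_n]
  rcases Int.units_eq_one_or (chi2 p u) with h | h
  · obtain ⟨v, rfl⟩ := chi2_eq_one p hp u h
    rw [h, Units.val_mul, ← pow_two, quadraticChar_sq_one' v.ne_zero]
    rfl
  · rw [h]
    have h1 : quadraticChar (ZMod p) (u : ZMod p) ≠ 1 := by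
      intro h2
      rw [quadraticChar_one_iff_isSquare u.ne_zero] at h2
      obtain ⟨v, hv⟩ := h2
      have hv0 : v ≠ 0 := by
        rintro rfl
        rw [mul_zero] at hv
        exact u.ne_zero hv
      have h3 : u = Units.mk0 v hv0 * Units.mk0 v hv0 := Units.ext hv
      rw [h3, chi2_sq] at h
      exact absurd h (by decide)
    have h2 := (quadraticChar_eq_neg_one_iff_not_one u.ne_zero).2 h1
    rw [h2]
    rfl

end Pool.Agent.Helper41.SST
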